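import Pool.Agent.T6.H2.CL.Prime

set_option autoImplicit false

/-!
# Clusters of prime offsets common to arbitrary intervals between odd squares (helper2)

`I k` is the set of the integers between `(2 k - 1) ^ 2` and `(2 k + 1) ^ 2`. Let `k_1, ..., k_K` be ANY integers in
`[X / 2, X ^ a]`. There are many isolated clusters of `m` primes `q` between `X / 2` and `2 X`, of bounded diameter, such
that for ALL these primes `q` ALL the numbers `4 k_i ^ 2 + q`, which lie in `I (k_i)`, are products of a bounded number of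
large primes; and near these numbers there are no other numbers without small prime factors.
-/

namespace Pool.Agent.Results.MP_3a3367_nt.ClusterOffsets

open Finset Filter

/-- the integers between `(2 k - 1) ^ 2` and `(2 k + 1) ^ 2` -/
def I (k : ℕ) : Set ℤ := {n | (2 * (k : ℤ) - 1) ^ 2 < n ∧ n < (2 * (k : ℤ) + 1) ^ 2}

/-- `|v| > 1`, and `|v|` is a product of at most `r` primes, all of them larger than `y` -/
def AlmostPrime (r : ℕ) (y : ℝ) (v : ℤ) : Prop :=
  1 < |v| ∧ v.natAbs.primeFactorsList.length ≤ r ∧ ∀ p : ℕ, p.Prime → (p : ℤ) ∣ v → y < p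

variable {K : ℕ}

/-- the numbers `x` and `4 k_i ^ 2 + x` -/
def vals (k : Fin K → ℕ) (x : ℤ) : Set ℤ := {v | v = x ∨ ∃ i, v = 4 * (k i : ℤ) ^ 2 + x}

/-- `p` starts a cluster: it is the first of at least `m` primes in `[p, p + C]`; there are no other primes at distance at
most `w` of `p`; for ALL primes `q` in `[p, p + C]` and all `i` the numbers `4 k_i ^ 2 + q` lie in `I (k_i)`, and they are
products of at most `T` primes `> y₀`; and every integer `z` without prime factors `≤ y`, at distance at most `w` of one of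
the numbers `p`, `4 k_i ^ 2 + p`, is such a product, too, and is one of the numbers `x`, `4 k_i ^ 2 + x` with an integer
`x` at distance at most `C` of `p` -/
def Cluster (k : Fin K → ℕ) (C m T : ℕ) (y₀ w y : ℝ) (p : ℕ) : Prop :=
  p.Prime ∧ m ≤ ((Icc p (p + C)).filter Nat.Prime).card ∧
    (∀ q : ℕ, q.Prime → |(q : ℝ) - p| ≤ w → p ≤ q ∧ q ≤ p + C) ∧
    (∀ q : ℕ, q.Prime → p ≤ q → q ≤ p + C →
      (∀ i, 4 * (k i : ℤ) ^ 2 + q ∈ I (k i)) ∧ ∀ v ∈ vals k q, AlmostPrime T y₀ v) ∧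
    ∀ v ∈ vals k p, ∀ z : ℤ, |(z : ℝ) - v| ≤ w → (∀ q : ℕ, q.Prime → (q : ℝ) ≤ y → ¬ (q : ℤ) ∣ z) →
      AlmostPrime T y₀ z ∧ ∃ x : ℤ, |x - p| ≤ C ∧ z ∈ vals k x

open Classical in
/-- the `p` in `(X / 2, 2 X]` which lie in a progression with `s` terms in `(X / 2, 2 X]`, of difference `≤ d`, whose terms
start clusters and have the colour of `p` -/
noncomputable def InProg (k : Fin K → ℕ) (C m T : ℕ) (y₀ w y : ℝ) {r : ℕ} (χ : ℕ → Fin r) (s : ℕ) (d : ℝ) (X : ℕ) :
    Finset ℕ :=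
  (Ioc (X / 2) (2 * X)).filter (fun p => ∃ x b : ℕ, 1 ≤ b ∧ (b : ℝ) ≤ d ∧ (∃ i < s, p = x + i * b) ∧
    ∀ i < s, x + i * b ∈ Ioc (X / 2) (2 * X) ∧ Cluster k C m T y₀ w y (x + i * b) ∧ χ (x + i * b) = χ p)

section

open Pool.Agent.X32.Uni Pool.Agent.T6.H2.PT Pool.Agent.T6.H2.CL

/-- the slopes and the constant terms -/
def sl (K : ℕ) : Fin (K + 1) → ℤ := Fin.cons 1 (fun _ => 1)

def co (k : Fin K → ℕ) : Fin (K + 1) → ℤ := Fin.cons 0 (fun i => 4 * (k i : ℤ) ^ 2)

theorem sl_eq (l : Fin (K + 1)) : sl K l = 1 := by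
  refine Fin.cases rfl (fun l => ?_) l
  unfold sl
  rw [Fin.cons_succ]

theorem co0 (k : Fin K → ℕ) : co k 0 = 0 := rfl

theorem co_succ (k : Fin K → ℕ) (l : Fin K) : co k l.succ = 4 * (k l : ℤ) ^ 2 := by
  unfold co
  rw [Fin.cons_succ]

theorem vals_iff (k : Fin K → ℕ) (x : ℤ) (v : ℤ) : v ∈ vals k x ↔ ∃ l, v = sl K l * x + co k l := by
  unfold vals
  rw [Set.mem_ofPred_eq]
  constructor
  · rintro (h | ⟨l, h⟩)
    · exact ⟨0, by rw [h, sl_eq, co0]; ring⟩
    · exact ⟨l.succ, by rw [h, sl_eq, co_succ]; ring⟩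
  · rintro ⟨l, h⟩
    revert h
    refine Fin.cases (fun h => ?_) (fun l h => ?_) l
    · exact Or.inl (by rw [h, sl_eq, co0]; ring)
    · exact Or.inr ⟨l, by rw [h, sl_eq, co_succ]; ring⟩

/-- the local condition: minus a nonresidue -/
theorem adm (k : Fin K → ℕ) (q : ℕ) (hq : q.Prime) : ∃ x : ℤ, ∀ l, ¬ (q : ℤ) ∣ sl K l * x + co k l := by
  have : Fact q.Prime := ⟨hq⟩
  rcases hq.eq_two_or_odd with rfl | hodd
  · refine ⟨1, Fin.cases ?_ (fun l => ?_)⟩
    · rw [sl_eq, co0]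
      decide
    · rw [sl_eq, co_succ]
      intro h
      have h1 : ((2 : ℕ) : ℤ) ∣ 4 * (k l : ℤ) ^ 2 := Dvd.dvd.mul_right (by decide) _
      have h2 := dvd_sub h h1
      rw [add_sub_cancel_right] at h2
      exact absurd h2 (by decide)
  · have hq2 : q ≠ 2 := by
      rintro rfl
      omega
    obtain ⟨x, hx⟩ := FiniteField.exists_nonsquare (F := ZMod q) (by
      rw [ZMod.ringChar_zmod_n]
      exact hq2)
    obtain ⟨n, hn⟩ : ∃ n : ℕ, (n : ZMod q) = -x := ⟨(-x).val, ZMod.natCast_zmod_val _⟩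
    refine ⟨n, Fin.cases ?_ (fun l => ?_)⟩
    · rw [sl_eq, co0]
      intro h
      rw [one_mul, add_zero, ← ZMod.intCast_zmod_eq_zero_iff_dvd, Int.cast_natCast, hn, neg_eq_zero] at h
      apply hx
      rw [h]
      exact ⟨0, by ring⟩
    · rw [sl_eq, co_succ]
      intro h
      apply hx
      rw [← ZMod.intCast_zmod_eq_zero_iff_dvd] at h
      push_cast at h
      rw [hn, one_mul] at h
      refine ⟨2 * (k l : ZMod q), ?_⟩
      have h1 : x = 4 * (k l : ZMod q) ^ 2 := neg_add_eq_zero.1 h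
      rw [h1]
      ring

/-- the values at the arguments up to `2 X` -/
theorem val_low {k : Fin K → ℕ} {X : ℕ} (hX : 3 ≤ X) (hk : ∀ i, X ≤ 2 * k i) (l : Fin (K + 1))
    {x : ℤ} (hx0 : 0 ≤ x) : (l = 0) ∨ 3 * (X : ℤ) ≤ sl K l * x + co k l := by
  revert l
  refine Fin.cases (Or.inl rfl) (fun i => Or.inr ?_)
  rw [sl_eq, co_succ]
  have h1 : (X : ℤ) ≤ 2 * k i := by exact_mod_cast hk i
  have h2 : (3 : ℤ) ≤ X := by exact_mod_cast hX
  nlinarith

open Classical in
/-- **Theorem.** Many isolated clusters of `m` primes `q` such that all `4 k_i ^ 2 + q ∈ I (k_i)` are almost prime, for ANY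
`k_1, ..., k_K`, in one-coloured progressions. -/
theorem result (K m : ℕ) : ∃ C D t : ℕ, 1 ≤ t ∧ ∃ c : ℝ, 0 < c ∧ ∀ β : ℝ, 0 < β → ∃ ε : ℝ, 0 < ε ∧
    ∀ a s r : ℕ, 1 ≤ s → ∃ d X₀ : ℕ, ∀ X : ℕ, X₀ ≤ X → ∀ k : Fin K → ℕ,
      (∀ i, X ≤ 2 * k i ∧ k i ≤ X ^ a) → ∀ χ : ℕ → Fin r,
        c * X / Real.log X ^ D ≤ ((InProg k C m ((2 * a + 4) * t) ((X : ℝ) ^ (1 / (t : ℝ))) (ε * Real.log X)
          ((X : ℝ) ^ β) χ s (Real.log X ^ d) X).card : ℝ) := by
  obtain ⟨C, D, t, ht, c, hc, H⟩ := cluP (K + 1) m (by omega)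
  refine ⟨C, D, t, ht, c, hc, fun β hβ => ?_⟩
  obtain ⟨ε, hε, H⟩ := H β 1 hβ
  refine ⟨ε, hε, fun a s r hs => ?_⟩
  obtain ⟨d, X₁, H⟩ := H (2 * a + 1) s r hs
  have hlogt : Tendsto (fun X : ℕ => Real.log (X : ℝ)) atTop atTop :=
    Real.tendsto_log_atTop.comp tendsto_natCast_atTop_atTop
  obtain ⟨X₂, h2⟩ := eventually_atTop.1 ((hlogt.eventually_ge_atTop ((C : ℝ) / ε)).and (log_small 1 (8 * ε)))
  refine ⟨d, X₁ + X₂ + 2 * C + 4, fun X hX k hk χ => ?_⟩
  obtain ⟨g1, g2⟩ := h2 X (by omega)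
  rw [div_le_iff₀ hε] at g1
  rw [pow_one] at g2
  have hX0 : (0 : ℝ) < X := by exact_mod_cast (by omega : 0 < X)
  have hX1 : (1 : ℤ) ≤ X := by exact_mod_cast (by omega : 1 ≤ X)
  have hC0 : (0 : ℝ) ≤ C := Nat.cast_nonneg _
  have hsq : ∀ l, |4 * (k l : ℤ) ^ 2| ≤ (X : ℤ) ^ (2 * a + 1) := by
    intro l
    have h1 : (k l : ℤ) ≤ (X : ℤ) ^ a := by exact_mod_cast (hk l).2
    have h4 : (4 : ℤ) ≤ X := by exact_mod_cast (by omega : 4 ≤ X)
    rw [abs_of_nonneg (by positivity)]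
    calc 4 * (k l : ℤ) ^ 2 ≤ X * ((X : ℤ) ^ a) ^ 2 :=
          mul_le_mul h4 (pow_le_pow_left₀ (by positivity) h1 2) (by positivity) (by positivity)
      _ = (X : ℤ) ^ (2 * a + 1) := by ring
  have hlow := fun (l : Fin (K + 1)) (x : ℤ) (h0 : 0 ≤ x) =>
    val_low (k := k) (by omega : 3 ≤ X) (fun i => (hk i).1) l h0
  obtain ⟨S, hS1, hS2⟩ := H X (by omega) (sl K) (co k)
    { a0 := fun l => by rw [sl_eq]; norm_num
      aE := fun l => by rw [sl_eq]; norm_num
      bX := by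
        refine Fin.cases (by rw [co0, abs_zero]; positivity) (fun l => ?_)
        rw [co_succ]; exact hsq l
      adm := fun q hq => adm k q hq
      id := ⟨0, sl_eq 0, co0 k⟩ }
    (fun l => by
      by_cases hl : l = 0
      · left
        rw [hl]
        exact ⟨sl_eq 0, co0 k⟩
      · right
        intro x hx0 hx2
        rcases hlow l x hx0 with h | h
        · exact absurd h hl
        · exact h.trans (le_abs_self _)) χ
  refine hS1.trans ?_
  have hcard : S.card ≤ (InProg k C m ((2 * a + 4) * t) ((X : ℝ) ^ (1 / (t : ℝ))) (ε * Real.log X)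
          ((X : ℝ) ^ β) χ s (Real.log X ^ d) X).card := by
    apply card_le_card
    intro p hp
    obtain ⟨x, e, e1, e2, ⟨j0, hj0, hpj⟩, e4⟩ := hS2 p hp
    have hall : ∀ j < s, x + j * e ∈ Ioc (X / 2) (2 * X) ∧ Cluster k C m ((2 * a + 4) * t) ((X : ℝ) ^ (1 / (t : ℝ)))
        (ε * Real.log X) ((X : ℝ) ^ β) (x + j * e) ∧ χ (x + j * e) = χ p := by
      intro j hj
      obtain ⟨e5, e6, e7, e8⟩ := e4 j hj
      obtain ⟨p', hp'⟩ : ∃ p' : ℕ, p' = x + j * e := ⟨_, rfl⟩
      rw [← hp'] at e5 e6 e7 e8 ⊢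
      refine ⟨mem_Ioc.2 ⟨e6, by omega⟩, ?_, e8⟩
      obtain ⟨k1, k2, k3, k4, k5⟩ := e5
      refine ⟨k1, k2, k3, fun q hq hq1 hq2 => ⟨fun i => ?_, fun v hv => ?_⟩, fun v hv z hz1 hz2 => ?_⟩
      · have h1 : (X : ℤ) ≤ 2 * k i := by exact_mod_cast (hk i).1
        have hqX : (q : ℤ) ≤ 2 * X := by exact_mod_cast (by omega : q ≤ 2 * X)
        have hq0 : (0 : ℤ) < q := by exact_mod_cast hq.pos
        refine ⟨?_, ?_⟩
        · nlinarith
        · nlinarith
      · obtain ⟨l, rfl⟩ := (vals_iff k q v).1 hv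
        have := k4 q hq hq1 hq2 l
        rwa [show (2 * a + 1 + 3) * t = (2 * a + 4) * t by ring] at this
      · obtain ⟨l, rfl⟩ := (vals_iff k p' v).1 hv
        obtain ⟨l', x', f1, f2, f3⟩ := k5 l z hz1 hz2
        rw [show (2 * a + 1 + 3) * t = (2 * a + 4) * t by ring] at f3
        refine ⟨f3, x', f1, (vals_iff k x' z).2 ⟨l', ?_⟩⟩
        rcases f2 with f2 | f2
        · exact f2
        · exfalso
          -- the values are positive
          have f1' := abs_le.1 f1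
          have hCX : 8 * C ≤ X := by
            have : 8 * (C : ℝ) ≤ X := by linarith
            exact_mod_cast this
          have hp'z : (X : ℤ) < 2 * p' := by exact_mod_cast (by omega : X < 2 * p')
          have hp'z2 : (p' : ℤ) ≤ X + C := by exact_mod_cast e7
          have hCXz : 8 * (C : ℤ) ≤ X := by exact_mod_cast hCX
          have hx0 : 0 < x' := by linarith [f1'.1]
          have hpos : ∀ (l : Fin (K + 1)) (u : ℤ), 0 < u → u ≤ sl K l * u + co k l ∨
              3 * (X : ℤ) ≤ sl K l * u + co k l := by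
            intro l u h0
            rcases hlow l u h0.le with h | h
            · left
              rw [h, sl_eq, co0]
              linarith
            · exact Or.inr h
          have hz0 : z < 0 := by
            rcases hpos l' x' hx0 with h | h
            · linarith
            · linarith
          have hv4 : (X : ℤ) < 4 * (sl K l * (p' : ℤ) + co k l) := by
            rcases hpos l p' (by linarith) with h | h
            · linarith
            · linarith
          have hv4r : (X : ℝ) < 4 * ((sl K l * (p' : ℤ) + co k l : ℤ) : ℝ) := by exact_mod_cast hv4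
          have hz0r : (z : ℝ) < 0 := by exact_mod_cast hz0
          have := (abs_le.1 hz1).1
          linarith
    unfold InProg
    rw [mem_filter]
    refine ⟨?_, x, e, e1, e2, ⟨j0, hj0, hpj⟩, hall⟩
    rw [hpj]
    exact (hall j0 hj0).1
  exact_mod_cast hcard

end

end Pool.Agent.Results.MP_3a3367_nt.ClusterOffsets
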