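import Pool.Agent.T6.H2.FR.Iso
import Pool.Agent.T6.H2.PR.Cls

set_option autoImplicit false

/-!
# The same Chen primes as offsets in consecutive intervals between odd squares (helper2)

`I k` is the set of the integers between `(2 k - 1) ^ 2` and `(2 k + 1) ^ 2`. For every `K`, EVERY large `k` and every `X`
with `k ^ (1/a) ≤ X ≤ 4 k` there are at least `κ X / (log X) ^ (K + 2)` primes `p ≤ X` such that `p + (K + 2)!` is a
product of at most two primes and, for all `i < K`, the number `4 (k + i) ^ 2 + p`, which lies in `I (k + i)`, is a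
product of a bounded number of large primes, while all the other integers near one of these numbers have a small prime
factor. In general: let `f_1, ..., f_J` be integers, `f_j ≠ 0`; for all large `X` and ALL integers `M_1, ..., M_K` of
absolute value at most `X ^ a` which satisfy the local condition the primes `n` in windows of length `≥ η X` for which
`n + f_j` is a product of at most two primes and all the `n + f_l`, `n + M_l` are almost prime and isolated have the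
expected order of magnitude and are almost all covered by narrow monochromatic progressions.
-/

namespace Pool.Agent.Results.MP_3a3367_nt.CommonPrimeOffsets

open Finset Filter
open Pool.Agent.X32.Uni Pool.Agent.T6.H2.PT Pool.Agent.T6.H2.FR

/-- `|v| > 1`, and `|v|` is a product of at most `r` primes, all of them larger than `y` -/
def AlmostPrime (r : ℕ) (y : ℝ) (v : ℤ) : Prop :=
  1 < |v| ∧ v.natAbs.primeFactorsList.length ≤ r ∧ ∀ p : ℕ, p.Prime → (p : ℤ) ∣ v → y < p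

variable {J K : ℕ}

/-- the numbers `n`, `n + f_l` and `n + M_l` -/
def vals (f : Fin J → ℤ) (M : Fin K → ℤ) (n : ℕ) : Set ℤ :=
  {v | v = (n : ℤ) ∨ (∃ l, v = n + f l) ∨ ∃ l, v = n + M l}

/-- all the integers `z` at distance at most `w` of one of the numbers `vals f M n`, except for the numbers `± v`, `v`
one of them, have a prime factor `≤ y` -/
def Isolated (f : Fin J → ℤ) (M : Fin K → ℤ) (w y : ℝ) (n : ℕ) : Prop :=
  ∀ v ∈ vals f M n, ∀ z : ℤ, |(z : ℝ) - v| ≤ w → (∀ v' ∈ vals f M n, z ≠ v' ∧ z ≠ -v') →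
    ∃ q : ℕ, q.Prime ∧ (q : ℝ) ≤ y ∧ (q : ℤ) ∣ z

open Classical in
/-- the primes `n` in `(A, B]` such that `n + f_j` is a product of at most two primes `> X ^ (1/9)`, all the numbers
`vals f M n` are products of at most `T` primes `> X ^ (1/t)`, and `n` is isolated -/
noncomputable def Good (f : Fin J → ℤ) (M : Fin K → ℤ) (j : Fin J) (t T X : ℕ) (w y : ℝ) (A B : ℕ) : Finset ℕ :=
  (Ioc A B).filter (fun n : ℕ => n.Prime ∧ AlmostPrime 2 ((X : ℝ) ^ (1 / 9 : ℝ)) (n + f j) ∧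
    (∀ v ∈ vals f M n, AlmostPrime T ((X : ℝ) ^ (1 / (t : ℝ))) v) ∧ Isolated f M w y n)

open Classical in
/-- the `n` in `(A, B]` such that none of the numbers `vals f M n` has a prime factor `≤ y` -/
noncomputable def Rough (f : Fin J → ℤ) (M : Fin K → ℤ) (y : ℝ) (A B : ℕ) : Finset ℕ :=
  (Ioc A B).filter (fun n : ℕ => ∀ v ∈ vals f M n, ∀ q : ℕ, q.Prime → (q : ℝ) ≤ y → ¬ (q : ℤ) ∣ v)

/-- the local condition -/
def Local (f : Fin J → ℤ) (M : Fin K → ℤ) : Prop :=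
  ∀ p : ℕ, p.Prime → ∃ n : ℕ, ∀ v ∈ vals f M n, ¬ (p : ℤ) ∣ v

open Classical in
/-- the number of the `n` modulo `p` for which `p` divides one of the numbers `vals f M n` -/
noncomputable def nu (f : Fin J → ℤ) (M : Fin K → ℤ) (p : ℕ) : ℕ :=
  ((range p).filter (fun n : ℕ => ∃ v ∈ vals f M n, (p : ℤ) ∣ v)).card

/-- the product of the `1 - nu / p` over the primes `p ≤ X` -/
noncomputable def V (f : Fin J → ℤ) (M : Fin K → ℤ) (X : ℕ) : ℝ :=
  ∏ p ∈ (Icc 1 X).filter Nat.Prime, (1 - (nu f M p : ℝ) / p)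

/-- the terms `a, a + b, ..., a + (s - 1) b` of the progression `z = (a, b)` -/
def terms (s : ℕ) (z : ℕ × ℕ) : Finset ℕ := (range s).image (fun i => z.1 + i * z.2)

/-- the slopes and the constant terms -/
def sl (J K : ℕ) : Fin (J + K + 1) → ℤ := Fin.cons 1 (Fin.append (fun _ : Fin J => 1) (fun _ : Fin K => 1))
def co (f : Fin J → ℤ) (M : Fin K → ℤ) : Fin (J + K + 1) → ℤ :=
  Fin.cons 0 (Fin.append f M)

theorem sl_succ_l (l : Fin J) : sl J K (Fin.castAdd K l).succ = 1 := by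
  unfold sl
  rw [Fin.cons_succ, Fin.append_left]

theorem sl_succ_r (l : Fin K) : sl J K (Fin.natAdd J l).succ = 1 := by
  unfold sl
  rw [Fin.cons_succ, Fin.append_right]

theorem co_succ_l (f : Fin J → ℤ) (M : Fin K → ℤ) (l : Fin J) : co f M (Fin.castAdd K l).succ = f l := by
  unfold co
  rw [Fin.cons_succ, Fin.append_left]

theorem co_succ_r (f : Fin J → ℤ) (M : Fin K → ℤ) (l : Fin K) :
    co f M (Fin.natAdd J l).succ = M l := by
  unfold co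
  rw [Fin.cons_succ, Fin.append_right]

theorem idx_cases (P : Fin (J + K + 1) → Prop) (h0 : P 0) (h1 : ∀ l : Fin J, P (Fin.castAdd K l).succ)
    (h2 : ∀ l : Fin K, P (Fin.natAdd J l).succ) (l : Fin (J + K + 1)) : P l := by
  refine Fin.cases h0 (fun l => ?_) l
  exact Fin.addCases h1 h2 l

theorem vals_iff (f : Fin J → ℤ) (M : Fin K → ℤ) (n : ℕ) (v : ℤ) :
    v ∈ vals f M n ↔ ∃ l, v = sl J K l * (n : ℤ) + co f M l := by
  have e0 : sl J K 0 * (n : ℤ) + co f M 0 = n := by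
    change (1 : ℤ) * n + 0 = n
    ring
  unfold vals
  rw [Set.mem_ofPred_eq]
  constructor
  · rintro (h | ⟨l, h⟩ | ⟨l, h⟩)
    · exact ⟨0, by rw [h, e0]⟩
    · exact ⟨(Fin.castAdd K l).succ, by rw [h, sl_succ_l, co_succ_l, one_mul]⟩
    · exact ⟨(Fin.natAdd J l).succ, by rw [h, sl_succ_r, co_succ_r, one_mul]⟩
  · rintro ⟨l, h⟩
    revert h
    refine idx_cases (fun l => v = sl J K l * (n : ℤ) + co f M l → _) (fun h => ?_) (fun l h => ?_) (fun l h => ?_) l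
    · exact Or.inl (by rw [h, e0])
    · exact Or.inr (Or.inl ⟨l, by rw [h, sl_succ_l, co_succ_l, one_mul]⟩)
    · exact Or.inr (Or.inr ⟨l, by rw [h, sl_succ_r, co_succ_r, one_mul]⟩)

theorem good_eq (f : Fin J → ℤ) (M : Fin K → ℤ) (j : Fin J) (t T X : ℕ) (w y : ℝ) (A B : ℕ) :
    Good f M j t T X w y A B = GoodFI (sl J K) (co f M) 0 (Fin.castAdd K j).succ t T X w y A B := by
  classical
  unfold Good GoodFI GoodF
  rw [filter_filter]
  apply filter_congr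
  intro n _
  have e0 : sl J K 0 * (n : ℤ) + co f M 0 = n := by
    change (1 : ℤ) * n + 0 = n
    ring
  have ej : sl J K (Fin.castAdd K j).succ * (n : ℤ) + co f M (Fin.castAdd K j).succ = n + f j := by
    rw [sl_succ_l, co_succ_l, one_mul]
  rw [e0, ej, Int.natAbs_natCast]
  constructor
  · rintro ⟨h1, h2, h3, h4⟩
    refine ⟨⟨h1, h2, fun l => h3 _ ((vals_iff f M n _).2 ⟨l, rfl⟩)⟩, ?_⟩
    intro l z hz1 hz2
    refine h4 _ ((vals_iff f M n _).2 ⟨l, rfl⟩) z hz1 (fun v' hv' => ?_)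
    obtain ⟨l', rfl⟩ := (vals_iff f M n _).1 hv'
    exact hz2 l'
  · rintro ⟨⟨h1, h2, h3⟩, h4⟩
    refine ⟨h1, h2, fun v hv => ?_, fun v hv z hz1 hz2 => ?_⟩
    · obtain ⟨l, rfl⟩ := (vals_iff f M n _).1 hv
      exact h3 l
    · obtain ⟨l, rfl⟩ := (vals_iff f M n _).1 hv
      exact h4 l z hz1 (fun l' => hz2 _ ((vals_iff f M n _).2 ⟨l', rfl⟩))

theorem rough_eq (f : Fin J → ℤ) (M : Fin K → ℤ) (y : ℝ) (A B : ℕ) :
    Rough f M y A B = RL (sl J K) (co f M) y A B := by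
  classical
  unfold Rough RL
  apply filter_congr
  intro n _
  constructor
  · intro h l
    exact h _ ((vals_iff f M n _).2 ⟨l, rfl⟩)
  · intro h v hv
    obtain ⟨l, rfl⟩ := (vals_iff f M n _).1 hv
    exact h l

theorem V_eq (f : Fin J → ℤ) (M : Fin K → ℤ) (X : ℕ) : V f M X = VL (sl J K) (co f M) X := by
  classical
  unfold V VL
  apply prod_congr rfl
  intro p hp
  have hpp := (mem_filter.1 hp).2
  have : nu f M p = omL (sl J K) (co f M) p := by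
    unfold nu omL
    congr 1
    apply filter_congr
    intro n _
    constructor
    · rintro ⟨v, hv, hd⟩
      obtain ⟨l, rfl⟩ := (vals_iff f M n _).1 hv
      exact hd.trans (dvd_prod_of_mem (fun l => sl J K l * (n : ℤ) + co f M l) (mem_univ l))
    · intro h
      obtain ⟨l, _, hl⟩ := (Nat.prime_iff_prime_int.1 hpp).exists_mem_finset_dvd h
      exact ⟨_, (vals_iff f M n _).2 ⟨l, rfl⟩, hl⟩
  rw [this]

theorem sys (f : Fin J → ℤ) (M : Fin K → ℤ) (j : Fin J) (hj : f j ≠ 0) (a X : ℕ)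
    (hX : ∑ l, (f l).natAbs + 1 ≤ X) (hM : ∀ l, |M l| ≤ (X : ℤ) ^ a) (hloc : Local f M) :
    SysF (J + K + 1) 1 (∑ l, (f l).natAbs + 1) (a + 1) X (sl J K) (co f M) 0 (Fin.castAdd K j).succ := by
  have hX1 : (1 : ℤ) ≤ X := by exact_mod_cast (by omega : 1 ≤ X)
  have hfl : ∀ l, |f l| ≤ ((∑ l, (f l).natAbs : ℕ) : ℤ) := by
    intro l
    have h4 := Finset.single_le_sum (f := fun l => (f l).natAbs) (fun j _ => Nat.zero_le _) (mem_univ l)
    have h5 : ((f l).natAbs : ℤ) ≤ ((∑ l, (f l).natAbs : ℕ) : ℤ) := by exact_mod_cast h4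
    rwa [Int.natCast_natAbs] at h5
  have hXz : ((∑ l, (f l).natAbs : ℕ) : ℤ) + 1 ≤ X := by exact_mod_cast hX
  have hf0 : (0 : ℤ) ≤ ((∑ l, (f l).natAbs : ℕ) : ℤ) := by positivity
  have hXa : (X : ℤ) ≤ (X : ℤ) ^ (a + 1) := by
    calc (X : ℤ) = X ^ 1 := (pow_one _).symm
      _ ≤ _ := pow_le_pow_right₀ hX1 (by omega)
  have hXa' : (X : ℤ) ^ a ≤ (X : ℤ) ^ (a + 1) := pow_le_pow_right₀ hX1 (by omega)
  refine ⟨?_, ?_, ?_, ?_, ?_, ?_, ?_, ?_, ?_, ?_⟩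
  · refine idx_cases _ (by change (1 : ℤ) ≠ 0; norm_num) (fun l => ?_) (fun l => ?_)
    · rw [sl_succ_l]; norm_num
    · rw [sl_succ_r]; norm_num
  · change (1 : ℤ).natAbs ≤ 1
    norm_num
  · rw [sl_succ_l]; norm_num
  · have h0 : |(1 : ℤ)| ≤ ((∑ l, (f l).natAbs + 1 : ℕ) : ℤ) := by
      push_cast [abs_one]
      have : (0 : ℤ) ≤ ∑ l, |f l| := Finset.sum_nonneg fun l _ => abs_nonneg _
      linarith
    refine idx_cases _ ?_ (fun l => ?_) (fun l => ?_)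
    · change |(1 : ℤ)| ≤ _
      exact h0
    · rw [sl_succ_l]
      exact h0
    · rw [sl_succ_r]
      exact h0
  · change |(0 : ℤ)| ≤ _
    rw [abs_zero]
    positivity
  · rw [co_succ_l]
    refine (hfl j).trans ?_
    push_cast at hf0 ⊢
    nlinarith
  · refine idx_cases _ ?_ (fun l => ?_) (fun l => ?_)
    · change |(0 : ℤ)| ≤ _
      rw [abs_zero]
      positivity
    · rw [co_succ_l]
      have := hfl l
      linarith
    · rw [co_succ_r]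
      exact (hM l).trans hXa'
  · intro p hp
    obtain ⟨n, hn⟩ := hloc p hp
    exact ⟨n, fun l => hn _ ((vals_iff f M n _).2 ⟨l, rfl⟩)⟩
  · rw [co_succ_l]
    intro h
    exact hj (congrArg Prod.snd h)
  · rw [sl_succ_l]
    intro h
    have h1 : (1 : ℤ) = -1 := congrArg Prod.fst h
    omega

/-- the general theorem -/
theorem general (K : ℕ) (f : Fin J → ℤ) (j : Fin J) (hj : f j ≠ 0) :
    ∃ t : ℕ, 1 ≤ t ∧ ∃ κ : ℝ, 0 < κ ∧ ∀ β : ℝ, 0 < β → ∃ ε C : ℝ, 0 < ε ∧ ∀ (a s r : ℕ) (η δ : ℝ), 1 ≤ s → 0 < η →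
      0 < δ → ∃ c X₀ : ℕ, ∀ (X : ℕ) (M : Fin K → ℤ), X₀ ≤ X → (∀ l, |M l| ≤ (X : ℤ) ^ a) → Local f M →
      κ / Real.log X ^ (J + K + 1) ≤ V f M X ∧ ∀ A B : ℕ, B ≤ X → η * X ≤ (B : ℝ) - A →
        κ * ((B : ℝ) - A) * V f M X ≤
          ((Good f M j t ((a + 3) * t) X (ε * Real.log X) ((X : ℝ) ^ β) A B).card : ℝ) ∧
        ((Rough f M ((X : ℝ) ^ β) A B).card : ℝ) ≤ C * ((B : ℝ) - A) * V f M X ∧
        ∀ χ : ℕ → Fin r, ∃ P : Finset (ℕ × ℕ),
          (∀ z ∈ P, 1 ≤ z.2 ∧ (z.2 : ℝ) ≤ Real.log X ^ c ∧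
            ∀ m < s, z.1 + m * z.2 ∈ Good f M j t ((a + 3) * t) X (ε * Real.log X) ((X : ℝ) ^ β) A B ∧
              χ (z.1 + m * z.2) = χ z.1) ∧
          (P : Set (ℕ × ℕ)).PairwiseDisjoint (terms s) ∧
          (((Good f M j t ((a + 3) * t) X (ε * Real.log X) ((X : ℝ) ^ β) A B \ P.biUnion (terms s)).card : ℕ) : ℝ) ≤
            δ * ((B : ℝ) - A) * V f M X := by
  classical
  obtain ⟨t, ht, κ, hκ, HF⟩ := farI (J + K + 1) 1 (by omega)
  refine ⟨t, ht, κ, hκ, fun β hβ => ?_⟩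
  obtain ⟨ε, hε, HF⟩ := HF β (∑ l, (f l).natAbs + 1) hβ
  obtain ⟨KU, hKU, n₀, HR⟩ := rough_lin (J + K + 1) 1 (by omega) (1 / 2) (by norm_num) β hβ
  refine ⟨ε, KU, hε, fun a s r η δ hs hη hδ => ?_⟩
  obtain ⟨c, X₀, HF⟩ := HF (a + 1) s r η δ hs hη hδ
  have h4 : ∀ᶠ X : ℕ in atTop, 1 / η ≤ (X : ℝ) ^ (1 / 2 : ℝ) :=
    ((tendsto_rpow_atTop (by norm_num : (0 : ℝ) < 1 / 2)).comp tendsto_natCast_atTop_atTop).eventually_ge_atTop _
  obtain ⟨X₁, h4⟩ := eventually_atTop.1 h4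
  refine ⟨c, X₀ + n₀ + X₁ + (∑ l, (f l).natAbs + 1), fun X M hX hM hloc => ?_⟩
  have S := sys f M j hj a X (by omega) hM hloc
  obtain ⟨h1, h2⟩ := HF X (by omega) _ _ _ _ S
  rw [V_eq]
  refine ⟨h1, fun A B hB hAB => ?_⟩
  obtain ⟨h3, h5⟩ := h2 A B hB hAB
  rw [good_eq, rough_eq]
  refine ⟨h3, ?_, h5⟩
  refine HR X (by omega) _ _ S.a0 ?_ A B hB ?_
  · refine idx_cases _ ?_ (fun l => ?_) (fun l => ?_)
    · change |(1 : ℤ)| ≤ _
      norm_num
    · rw [sl_succ_l]; norm_num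
    · rw [sl_succ_r]; norm_num
  · have hX0 : (0 : ℝ) < X := by exact_mod_cast (by omega : 0 < X)
    refine le_trans ?_ hAB
    have e1 := h4 X (by omega)
    have e2 : (X : ℝ) ^ (1 / 2 : ℝ) * (X : ℝ) ^ (1 / 2 : ℝ) = X := by
      rw [← Real.rpow_add hX0]
      norm_num
    have e3 : 0 ≤ (X : ℝ) ^ (1 / 2 : ℝ) := by positivity
    rw [div_le_iff₀ hη] at e1
    calc (X : ℝ) ^ (1 / 2 : ℝ) = (X : ℝ) ^ (1 / 2 : ℝ) * 1 := (mul_one _).symm
      _ ≤ (X : ℝ) ^ (1 / 2 : ℝ) * ((X : ℝ) ^ (1 / 2 : ℝ) * η) := by gcongr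
      _ = η * X := by rw [← mul_assoc, e2]; ring

/-- the integers between `(2 k - 1) ^ 2` and `(2 k + 1) ^ 2` -/
def I (k : ℕ) : Set ℤ := {n | (2 * (k : ℤ) - 1) ^ 2 < n ∧ n < (2 * (k : ℤ) + 1) ^ 2}

/-- the squares `4 (k + i) ^ 2` -/
def sq (K k : ℕ) (i : Fin K) : ℤ := 4 * ((k : ℤ) + i) ^ 2

theorem local_sq (K k : ℕ) : Local ![((K + 2).factorial : ℤ)] (sq K k) := by
  intro p hp
  have key : ∀ n : ℕ, ¬ (p : ℤ) ∣ (n : ℤ) → ¬ (p : ℤ) ∣ (n : ℤ) + ((K + 2).factorial : ℤ) →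
      (∀ i, ¬ (p : ℤ) ∣ (n : ℤ) + sq K k i) →
      ∀ v ∈ vals ![((K + 2).factorial : ℤ)] (sq K k) n, ¬ (p : ℤ) ∣ v := by
    rintro n h1 h2 h3 v (hv | ⟨l, hv⟩ | ⟨l, hv⟩)
    · rw [hv]; exact h1
    · rw [hv]
      fin_cases l
      simpa using h2
    · rw [hv]
      exact h3 l
  rcases Nat.lt_or_ge (K + 2) p with hlt | hge
  · -- a large prime
    obtain ⟨n, hn⟩ := Pool.Agent.T6.H2.PR.adm_big (sl 1 K) (co ![((K + 2).factorial : ℤ)] (sq K k)) p hp (by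
      have h1 : ¬ (p : ℤ) ∣ 1 := fun h => hp.one_lt.ne' (Nat.dvd_one.1 (by exact_mod_cast h))
      refine idx_cases _ h1 (fun l => ?_) (fun l => ?_)
      · rw [sl_succ_l]; exact h1
      · rw [sl_succ_r]; exact h1) (by omega)
    have hp0 : (0 : ℤ) < p := by exact_mod_cast hp.pos
    obtain ⟨n', hn'⟩ := Int.eq_ofNat_of_zero_le (Int.emod_nonneg n hp0.ne')
    have hd : (p : ℤ) ∣ (n' : ℤ) - n := by
      have h1 := Int.emod_add_mul_ediv n p
      rw [hn'] at h1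
      exact ⟨-(n / p), by linarith⟩
    refine ⟨n', fun v hv hd' => ?_⟩
    obtain ⟨l, rfl⟩ := (vals_iff _ _ n' _).1 hv
    apply hn l
    have := dvd_sub hd' (hd.mul_left (sl 1 K l))
    have e : sl 1 K l * (n' : ℤ) + co ![((K + 2).factorial : ℤ)] (sq K k) l - sl 1 K l * ((n' : ℤ) - n) =
        sl 1 K l * n + co ![((K + 2).factorial : ℤ)] (sq K k) l := by ring
    rwa [e] at this
  · have hfac : (p : ℤ) ∣ ((K + 2).factorial : ℤ) := Int.natCast_dvd_natCast.2 (Nat.dvd_factorial hp.pos hge)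
    have : Fact p.Prime := ⟨hp⟩
    rcases hp.eq_two_or_odd with rfl | hodd
    · refine ⟨1, key 1 (by decide) (fun h => ?_) (fun i h => ?_)⟩
      · have h1 := dvd_sub h hfac
        rw [add_sub_cancel_right] at h1
        exact absurd h1 (by decide)
      · unfold sq at h
        have h1 : ((2 : ℕ) : ℤ) ∣ 4 * ((k : ℤ) + i) ^ 2 := Dvd.dvd.mul_right (by decide) _
        have h2 := dvd_sub h h1
        rw [add_sub_cancel_right] at h2
        exact absurd h2 (by decide)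
    · -- a nonresidue
      have hp2 : p ≠ 2 := by
        rintro rfl
        omega
      obtain ⟨x, hx⟩ := FiniteField.exists_nonsquare (F := ZMod p) (by
        rw [ZMod.ringChar_zmod_n]
        exact hp2)
      obtain ⟨n, hn⟩ : ∃ n : ℕ, (n : ZMod p) = -x := ⟨(-x).val, ZMod.natCast_zmod_val _⟩
      have hx0 : x ≠ 0 := by
        rintro rfl
        exact hx ⟨0, by simp⟩
      have hn0 : ¬ (p : ℤ) ∣ (n : ℤ) := by
        intro h
        rw [Int.natCast_dvd_natCast, ← ZMod.natCast_eq_zero_iff, hn, neg_eq_zero] at h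
        exact hx0 h
      refine ⟨n, key n hn0 (fun h => hn0 ?_) (fun i h => ?_)⟩
      · have h1 := dvd_sub h hfac
        rwa [add_sub_cancel_right] at h1
      · apply hx
        rw [← ZMod.intCast_zmod_eq_zero_iff_dvd] at h
        unfold sq at h
        push_cast at h
        rw [hn] at h
        refine ⟨2 * ((k : ZMod p) + (i : ℕ)), ?_⟩
        have h1 : x = 4 * ((k : ZMod p) + (i : ℕ)) ^ 2 := by
          have := neg_add_eq_zero.1 h
          exact this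
        rw [h1]
        ring

open Classical in
/-- the intervals between odd squares -/
theorem squares (K : ℕ) : ∃ t : ℕ, 1 ≤ t ∧ ∃ κ : ℝ, 0 < κ ∧ ∀ β : ℝ, 0 < β → ∃ ε : ℝ, 0 < ε ∧ ∀ a : ℕ,
    1 ≤ a → ∃ X₀ : ℕ, ∀ X k : ℕ, X₀ ≤ X → X ≤ 4 * k → k ≤ X ^ a →
      κ * (X / Real.log X ^ (K + 2)) ≤ (((Icc 1 X).filter (fun p : ℕ => p.Prime ∧
        AlmostPrime 2 ((X : ℝ) ^ (1 / 9 : ℝ)) (p + (K + 2).factorial) ∧
        (∀ i < K, 4 * ((k : ℤ) + i) ^ 2 + p ∈ I (k + i) ∧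
          AlmostPrime (2 * (a + 2) * t) ((X : ℝ) ^ (1 / (t : ℝ))) (4 * ((k : ℤ) + i) ^ 2 + p)) ∧
        Isolated ![((K + 2).factorial : ℤ)] (sq K k) (ε * Real.log X) ((X : ℝ) ^ β) p)).card : ℝ) := by
  obtain ⟨t, ht, κ, hκ, HG⟩ := general K ![((K + 2).factorial : ℤ)] 0 (by
    simp only [Matrix.cons_val_zero]
    exact_mod_cast (Nat.factorial_pos (K + 2)).ne')
  refine ⟨t, ht, κ ^ 2, by positivity, fun β hβ => ?_⟩
  obtain ⟨ε, C, hε, HG⟩ := HG β hβ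
  refine ⟨ε, hε, fun a ha => ?_⟩
  obtain ⟨c, X₀, HG⟩ := HG (2 * a + 1) 1 1 1 1 le_rfl one_pos one_pos
  refine ⟨X₀ + K + 20, fun X k hX hXk hkX => ?_⟩
  have hX1 : (1 : ℤ) ≤ X := by exact_mod_cast (by omega : 1 ≤ X)
  have hsize : ∀ i, |sq K k i| ≤ (X : ℤ) ^ (2 * a + 1) := by
    intro i
    unfold sq
    have h1 : (k : ℤ) ≤ (X : ℤ) ^ a := by exact_mod_cast hkX
    have h2 : ((i : ℕ) : ℤ) ≤ (X : ℤ) ^ a := by
      have h3 : (i : ℕ) < K := i.2
      have h4 : ((i : ℕ) : ℤ) ≤ X := by exact_mod_cast (by omega : (i : ℕ) ≤ X)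
      refine h4.trans ?_
      calc (X : ℤ) = X ^ 1 := (pow_one _).symm
        _ ≤ _ := pow_le_pow_right₀ hX1 ha
    have h3 : (0 : ℤ) ≤ (k : ℤ) + (i : ℕ) := by positivity
    rw [abs_of_nonneg (by positivity)]
    have h4 : ((k : ℤ) + (i : ℕ)) ^ 2 ≤ (2 * (X : ℤ) ^ a) ^ 2 := pow_le_pow_left₀ h3 (by linarith) 2
    have h5 : (2 * (X : ℤ) ^ a) ^ 2 = 4 * (X : ℤ) ^ (2 * a) := by
      rw [mul_pow, ← pow_mul, mul_comm a 2]
      norm_num
    rw [h5] at h4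
    have h6 : (X : ℤ) ^ (2 * a + 1) = X ^ (2 * a) * X := pow_succ _ _
    have h7 : (16 : ℤ) ≤ X := by exact_mod_cast (by omega : 16 ≤ X)
    have h8 : (0 : ℤ) ≤ (X : ℤ) ^ (2 * a) := by positivity
    rw [h6]
    nlinarith
  obtain ⟨h1, h2⟩ := HG X (sq K k) (by omega) hsize (local_sq K k)
  obtain ⟨h3, -, -⟩ := h2 0 X le_rfl (by push_cast; linarith)
  have hcount : κ ^ 2 * (X / Real.log X ^ (K + 2)) ≤
      κ * ((X : ℝ) - (0 : ℕ)) * V ![((K + 2).factorial : ℤ)] (sq K k) X := by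
    have e1 : κ ^ 2 * (X / Real.log X ^ (K + 2)) = κ * X * (κ / Real.log X ^ (1 + K + 1)) := by
      rw [show 1 + K + 1 = K + 2 by ring]
      ring
    rw [e1]
    push_cast
    rw [sub_zero]
    exact mul_le_mul_of_nonneg_left h1 (by positivity)
  refine hcount.trans (h3.trans ?_)
  have hsub : Good ![((K + 2).factorial : ℤ)] (sq K k) 0 t ((2 * a + 1 + 3) * t) X (ε * Real.log X)
      ((X : ℝ) ^ β) 0 X ⊆ (Icc 1 X).filter (fun p : ℕ => p.Prime ∧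
        AlmostPrime 2 ((X : ℝ) ^ (1 / 9 : ℝ)) (p + (K + 2).factorial) ∧
        (∀ i < K, 4 * ((k : ℤ) + i) ^ 2 + p ∈ I (k + i) ∧
          AlmostPrime (2 * (a + 2) * t) ((X : ℝ) ^ (1 / (t : ℝ))) (4 * ((k : ℤ) + i) ^ 2 + p)) ∧
        Isolated ![((K + 2).factorial : ℤ)] (sq K k) (ε * Real.log X) ((X : ℝ) ^ β) p) := by
    intro p hp
    unfold Good at hp
    rw [mem_filter, mem_Ioc] at hp
    obtain ⟨⟨g1, g2⟩, g3, g4, g5, g6⟩ := hp
    rw [mem_filter, mem_Icc]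
    refine ⟨⟨g1, g2⟩, g3, g4, fun i hi => ⟨?_, ?_⟩, g6⟩
    · have hp1 : (1 : ℤ) ≤ p := by exact_mod_cast g1
      have hp2 : (p : ℤ) ≤ 4 * k := by exact_mod_cast g2.trans hXk
      have hi0 : (0 : ℤ) ≤ (i : ℤ) := by positivity
      have hk0 : (0 : ℤ) ≤ (k : ℤ) := by positivity
      constructor
      · push_cast
        nlinarith
      · push_cast
        nlinarith
    · have h5 := g5 (p + sq K k ⟨i, hi⟩) (Or.inr (Or.inr ⟨_, rfl⟩))
      have e : (p : ℤ) + sq K k ⟨i, hi⟩ = 4 * ((k : ℤ) + i) ^ 2 + p := by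
        unfold sq
        ring
      rw [e, show (2 * a + 1 + 3) * t = 2 * (a + 2) * t by ring] at h5
      exact h5
  exact_mod_cast card_le_card hsub

open Classical in
/-- **Common prime offsets.** -/
theorem result :
    (∀ K : ℕ, ∃ t : ℕ, 1 ≤ t ∧ ∃ κ : ℝ, 0 < κ ∧ ∀ β : ℝ, 0 < β → ∃ ε : ℝ, 0 < ε ∧ ∀ a : ℕ,
      1 ≤ a → ∃ X₀ : ℕ, ∀ X k : ℕ, X₀ ≤ X → X ≤ 4 * k → k ≤ X ^ a →
      κ * (X / Real.log X ^ (K + 2)) ≤ (((Icc 1 X).filter (fun p : ℕ => p.Prime ∧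
        AlmostPrime 2 ((X : ℝ) ^ (1 / 9 : ℝ)) (p + (K + 2).factorial) ∧
        (∀ i < K, 4 * ((k : ℤ) + i) ^ 2 + p ∈ I (k + i) ∧
          AlmostPrime (2 * (a + 2) * t) ((X : ℝ) ^ (1 / (t : ℝ))) (4 * ((k : ℤ) + i) ^ 2 + p)) ∧
        Isolated ![((K + 2).factorial : ℤ)] (sq K k) (ε * Real.log X) ((X : ℝ) ^ β) p)).card : ℝ)) ∧
    ∀ (J K : ℕ) (f : Fin J → ℤ) (j : Fin J), f j ≠ 0 →
      ∃ t : ℕ, 1 ≤ t ∧ ∃ κ : ℝ, 0 < κ ∧ ∀ β : ℝ, 0 < β → ∃ ε C : ℝ, 0 < ε ∧ ∀ (a s r : ℕ) (η δ : ℝ), 1 ≤ s → 0 < η →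
      0 < δ → ∃ c X₀ : ℕ, ∀ (X : ℕ) (M : Fin K → ℤ), X₀ ≤ X → (∀ l, |M l| ≤ (X : ℤ) ^ a) → Local f M →
      κ / Real.log X ^ (J + K + 1) ≤ V f M X ∧ ∀ A B : ℕ, B ≤ X → η * X ≤ (B : ℝ) - A →
        κ * ((B : ℝ) - A) * V f M X ≤
          ((Good f M j t ((a + 3) * t) X (ε * Real.log X) ((X : ℝ) ^ β) A B).card : ℝ) ∧
        ((Rough f M ((X : ℝ) ^ β) A B).card : ℝ) ≤ C * ((B : ℝ) - A) * V f M X ∧
        ∀ χ : ℕ → Fin r, ∃ P : Finset (ℕ × ℕ),
          (∀ z ∈ P, 1 ≤ z.2 ∧ (z.2 : ℝ) ≤ Real.log X ^ c ∧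
            ∀ m < s, z.1 + m * z.2 ∈ Good f M j t ((a + 3) * t) X (ε * Real.log X) ((X : ℝ) ^ β) A B ∧
              χ (z.1 + m * z.2) = χ z.1) ∧
          (P : Set (ℕ × ℕ)).PairwiseDisjoint (terms s) ∧
          (((Good f M j t ((a + 3) * t) X (ε * Real.log X) ((X : ℝ) ^ β) A B \ P.biUnion (terms s)).card : ℕ) : ℝ) ≤
            δ * ((B : ℝ) - A) * V f M X :=
  ⟨squares, fun _ K f j hj => general K f j hj⟩

end Pool.Agent.Results.MP_3a3367_nt.CommonPrimeOffsets
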