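import Pool.Agent.T6.H2.PT.IsoP
import Pool.Agent.T6.H2.PR.Ev

set_option autoImplicit false

/-!
# Isolated constellations with a prime in a positive proportion of the intervals between odd squares (helper2)

`I k` is the set of the integers between `(2 k - 1) ^ 2` and `(2 k + 1) ^ 2`. Let `f_1, ..., f_J` be shifts, `f_j ≠ 0`,
which satisfy the local condition. For a positive proportion of the `k` in `(N, (1 + θ) N]` the interval `I k` contains
at least `κ N / (log N) ^ (J + 1)` primes `n` such that `n + f_j` is a product of at most two primes, all the `n + f_l` are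
products of at most `t` primes, all large, every other integer near one of these numbers has a prime factor `≤ N ^ β`,
and `n` lies in an arithmetic progression with `s` terms inside `I k`, of difference at most a power of `log N`, of such
primes of the same colour.
-/

namespace Pool.Agent.Results.MP_3a3367_nt.PositiveProportion

open Finset Filter
open Pool.Agent.X32.Uni Pool.Agent.T6.H2.PT Pool.Agent.T6.H2.PR

/-- `|v| > 1`, and `|v|` is a product of at most `r` primes, all of them larger than `y` -/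
def AlmostPrime (r : ℕ) (y : ℝ) (v : ℤ) : Prop :=
  1 < |v| ∧ v.natAbs.primeFactorsList.length ≤ r ∧ ∀ p : ℕ, p.Prime → (p : ℤ) ∣ v → y < p

variable {J : ℕ}

/-- the numbers `n` and `n + f_l` -/
def vals (f : Fin J → ℤ) (n : ℕ) : Set ℤ := {v | v = (n : ℤ) ∨ ∃ l, v = n + f l}

/-- `n` is a prime, `n + f_j` is a product of at most two primes `> N ^ (2/9)`, all the `n + f_l` are products of at most
`t` primes `> N ^ (1/t)`, and every integer `z` at distance at most `w` of one of the numbers `n`, `n + f_l` has a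
prime factor `≤ y`, unless `z` or `-z` is one of these numbers -/
def Good (f : Fin J → ℤ) (j : Fin J) (t N : ℕ) (w y : ℝ) (n : ℕ) : Prop :=
  n.Prime ∧ AlmostPrime 2 ((N : ℝ) ^ (2 / 9 : ℝ)) (n + f j) ∧
    (∀ v ∈ vals f n, AlmostPrime t ((N : ℝ) ^ (1 / (t : ℝ))) v) ∧
    ∀ v ∈ vals f n, ∀ z : ℤ, |(z : ℝ) - v| ≤ w → (∀ v' ∈ vals f n, z ≠ v' ∧ z ≠ -v') →
      ∃ q : ℕ, q.Prime ∧ (q : ℝ) ≤ y ∧ (q : ℤ) ∣ z

/-- the local condition -/
def Local (f : Fin J → ℤ) : Prop := ∀ p : ℕ, p.Prime → ∃ n : ℕ, ∀ v ∈ vals f n, ¬ (p : ℤ) ∣ v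

/-- the integers between `(2 k - 1) ^ 2` and `(2 k + 1) ^ 2` (for `k ≥ 1`) -/
def I (k : ℕ) : Finset ℕ := Ioo ((2 * k - 1) ^ 2) ((2 * k + 1) ^ 2)

open Classical in
/-- the `n` in `I k` which lie in a progression with `s` terms in `I k`, of difference `≤ D`, whose terms are good and
have the colour of `n` -/
noncomputable def InProg (f : Fin J → ℤ) (j : Fin J) (t N : ℕ) (w y : ℝ) {r : ℕ} (χ : ℕ → Fin r) (s : ℕ) (D : ℝ)
    (k : ℕ) : Finset ℕ :=
  (I k).filter (fun n => ∃ x b : ℕ, 1 ≤ b ∧ (b : ℝ) ≤ D ∧ (∃ i < s, n = x + i * b) ∧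
    ∀ i < s, x + i * b ∈ I k ∧ Good f j t N w y (x + i * b) ∧ χ (x + i * b) = χ n)

/-- the constant terms -/
def co (f : Fin J → ℤ) : Fin (J + 1) → ℤ := Fin.cons 0 f

theorem vals_iff (f : Fin J → ℤ) (n : ℕ) (v : ℤ) :
    v ∈ vals f n ↔ ∃ l, v = (fun _ : Fin (J + 1) => (1 : ℤ)) l * (n : ℤ) + co f l := by
  unfold vals co
  rw [Set.mem_ofPred_eq]
  constructor
  · rintro (h | ⟨l, h⟩)
    · exact ⟨0, by rw [h, Fin.cons_zero]; ring⟩
    · exact ⟨l.succ, by rw [h, Fin.cons_succ]; ring⟩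
  · rintro ⟨l, h⟩
    revert h
    refine Fin.cases (fun h => ?_) (fun l h => ?_) l
    · exact Or.inl (by rw [h, Fin.cons_zero]; ring)
    · exact Or.inr ⟨l, by rw [h, Fin.cons_succ]; ring⟩

/-- the index of the interval -/
def kk (n : ℕ) : ℕ := (Nat.sqrt n + 1) / 2

theorem kk_spec (n k : ℕ) (hk : 1 ≤ k) : kk n = k ↔ (2 * k - 1) ^ 2 ≤ n ∧ n < (2 * k + 1) ^ 2 := by
  unfold kk
  have h1 : (2 * k - 1) ^ 2 ≤ n ↔ 2 * k - 1 ≤ Nat.sqrt n := by rw [Nat.le_sqrt', pow_two]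
  have h2 : n < (2 * k + 1) ^ 2 ↔ Nat.sqrt n < 2 * k + 1 := by rw [Nat.sqrt_lt', pow_two]
  rw [h1, h2]
  omega

theorem kk_I (n k : ℕ) (hk : 1 ≤ k) (hn : n.Prime) (h : kk n = k) : n ∈ I k := by
  obtain ⟨h1, h2⟩ := (kk_spec n k hk).1 h
  unfold I
  rw [mem_Ioo]
  refine ⟨lt_of_le_of_ne h1 ?_, h2⟩
  rintro rfl
  exact (Nat.Prime.prime hn).not_isSquare ⟨2 * k - 1, by ring⟩

open Classical in
/-- **Isolated constellations with a prime in a positive proportion of the intervals between odd squares.** -/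
theorem result (J : ℕ) : ∃ t : ℕ, 1 ≤ t ∧ ∃ κ : ℝ, 0 < κ ∧ ∀ (f : Fin J → ℤ) (j : Fin J), f j ≠ 0 → Local f →
    ∀ β : ℝ, 0 < β → ∃ ε : ℝ, 0 < ε ∧ ∀ (s r : ℕ) (θ : ℝ), 1 ≤ s → 0 < θ → θ ≤ 1 →
      ∃ c N₀ : ℕ, ∀ N : ℕ, N₀ ≤ N → ∀ χ : ℕ → Fin r,
        κ * (θ * N) ≤ (((Ioc N ⌊(1 + θ) * N⌋₊).filter (fun k => κ * (N / Real.log N ^ (J + 1)) ≤
          ((InProg f j t N (ε * Real.log N) ((N : ℝ) ^ β) χ s (Real.log N ^ c) k).card : ℝ))).card : ℝ) := by
  obtain ⟨t, ht, κ, hκ, HI⟩ := isoP (J + 1) 1 (by omega)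
  have ht0 : (0 : ℝ) < t := by exact_mod_cast ht
  obtain ⟨KU, hKU, n₀, HR⟩ := rough_lin (J + 1) 1 (by omega) (1 / 3) (by norm_num) (1 / (t : ℝ)) (by positivity)
  obtain ⟨κ₀, hκ₀⟩ : ∃ κ₀ : ℝ, κ₀ = min (κ / (16 * KU)) (κ ^ 2 / 3 ^ (J + 1)) := ⟨_, rfl⟩
  have hκ₀0 : 0 < κ₀ := by rw [hκ₀]; exact lt_min (by positivity) (by positivity)
  refine ⟨t, ht, κ₀, hκ₀0, fun f j hj hloc β hβ => ?_⟩
  obtain ⟨F, hF⟩ : ∃ F : ℕ, F = ∑ l, (f l).natAbs + 1 := ⟨_, rfl⟩
  obtain ⟨ε, hε, HI⟩ := HI (β / 3) F (by positivity)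
  refine ⟨ε, hε, fun s r θ hs hθ hθ1 => ?_⟩
  obtain ⟨c, X₀, HI⟩ := HI s (r * 2) (θ / 8) (κ / 2) hs (by positivity) (by positivity)
  have hev1 : ∀ᶠ N : ℕ in atTop, (4 : ℝ) / θ + 2 ≤ N := tendsto_natCast_atTop_atTop.eventually_ge_atTop _
  have hev2 := (tendsto_natCast_atTop_atTop (R := ℝ)).eventually
    ((isLittleO_log_rpow_rpow_atTop (c : ℝ) (show (0 : ℝ) < 1 by norm_num)).bound
      (show (0 : ℝ) < 1 / 3 ^ c by positivity))
  have hev3 : ∀ᶠ N : ℕ in atTop, (3 : ℝ) ^ c ≤ Real.log N :=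
    (Real.tendsto_log_atTop.comp tendsto_natCast_atTop_atTop).eventually_ge_atTop _
  obtain ⟨N₁, hN₁⟩ := eventually_atTop.1 (hev1.and (hev2.and hev3))
  refine ⟨c + 1, N₁ + X₀ + n₀ + 30 + F, fun N hN χ => ?_⟩
  obtain ⟨hN1, hN2, hN3⟩ := hN₁ N (by omega)
  have hN0 : (0 : ℝ) < N := by exact_mod_cast (by omega : 0 < N)
  have hN30 : (30 : ℝ) ≤ N := by exact_mod_cast (by omega : 30 ≤ N)
  have hlogN : 0 < Real.log N := Real.log_pos (by linarith)
  rw [Real.norm_eq_abs, Real.norm_eq_abs, Real.rpow_one, Real.rpow_natCast] at hN2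
  have hN2' : 3 ^ c * Real.log N ^ c ≤ N := by
    have h1 : Real.log N ^ c ≤ 1 / 3 ^ c * N := (le_abs_self _).trans (hN2.trans (by rw [abs_of_pos hN0]))
    have h2 : (0 : ℝ) < 3 ^ c := by positivity
    calc 3 ^ c * Real.log N ^ c ≤ 3 ^ c * (1 / 3 ^ c * N) := by gcongr
      _ = N := by field_simp
  obtain ⟨X, hX⟩ : ∃ X : ℕ, X = (4 * N + 1) ^ 2 := ⟨_, rfl⟩
  have hXr : (X : ℝ) = (4 * N + 1) ^ 2 := by rw [hX]; push_cast; rfl
  have hNX : N ≤ X := by rw [hX]; nlinarith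
  have hXN2 : (N : ℝ) ^ 2 ≤ X := by rw [hXr]; nlinarith
  have hXN3 : (X : ℝ) ≤ (N : ℝ) ^ 3 := by rw [hXr]; nlinarith
  have hX25 : (X : ℝ) ≤ 25 * (N : ℝ) ^ 2 := by rw [hXr]; nlinarith
  have hX0 : (0 : ℝ) < X := by nlinarith
  have hX1 : (1 : ℝ) ≤ X := by nlinarith
  have hlogX3 : Real.log X ≤ 3 * Real.log N := by
    calc Real.log X ≤ Real.log ((N : ℝ) ^ 3) := Real.log_le_log hX0 hXN3
      _ = 3 * Real.log N := by rw [Real.log_pow]; push_cast; ring
  have hlogNX : Real.log N ≤ Real.log X := Real.log_le_log hN0 (by exact_mod_cast hNX)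
  have hlogX : 0 < Real.log X := by linarith
  -- the system
  have hfl : ∀ l, |co f l| ≤ F := by
    intro l
    unfold co
    refine Fin.cases ?_ (fun l => ?_) l
    · rw [Fin.cons_zero, abs_zero]
      positivity
    · rw [Fin.cons_succ]
      have h4 := Finset.single_le_sum (f := fun l => (f l).natAbs) (fun j _ => Nat.zero_le _) (mem_univ l)
      have h5 : ((f l).natAbs : ℤ) ≤ F := by
        rw [hF]
        exact_mod_cast h4.trans (Nat.le_succ _)
      rwa [Int.natCast_natAbs] at h5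
  have hF1 : (1 : ℤ) ≤ F := by
    rw [hF]
    push_cast
    have : (0 : ℤ) ≤ ∑ l, |f l| := Finset.sum_nonneg fun l _ => abs_nonneg _
    linarith
  have SS : SysL (J + 1) 1 F X (fun _ => 1) (co f) 0 j.succ :=
    { a0 := fun _ => one_ne_zero
      aE := by norm_num
      aE' := by norm_num
      aK := fun _ => by rw [abs_one]; exact hF1
      bK := fun l => by
        refine (hfl l).trans ?_
        have : (1 : ℤ) ≤ X := by exact_mod_cast hX1
        have : (0 : ℤ) ≤ F := by positivity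
        nlinarith
      adm := by
        intro p hp
        obtain ⟨n, hn⟩ := hloc p hp
        exact ⟨n, fun l => hn _ ((vals_iff f n _).2 ⟨l, rfl⟩)⟩
      ne := by
        intro h
        have := congrArg Prod.snd h
        exact hj this
      ne' := by
        intro h
        have h1 : (1 : ℤ) = -1 := congrArg Prod.fst h
        omega }
  obtain ⟨hVlow, HI⟩ := HI X (by omega) _ _ _ _ SS
  obtain ⟨V, hV⟩ : ∃ V : ℝ, V = VL (fun _ => 1) (co f) X := ⟨_, rfl⟩
  rw [← hV] at hVlow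
  have hV0 : 0 < V := lt_of_lt_of_le (by positivity) hVlow
  -- the window
  obtain ⟨M, hM⟩ : ∃ M : ℕ, M = ⌊(1 + θ) * N⌋₊ := ⟨_, rfl⟩
  have hM1 : (M : ℝ) ≤ (1 + θ) * N := by rw [hM]; exact Nat.floor_le (by positivity)
  have hM2 : (1 + θ) * N < M + 1 := by rw [hM]; exact Nat.lt_floor_add_one _
  have hM2N : M ≤ 2 * N := by
    have : (M : ℝ) ≤ 2 * N := by nlinarith
    exact_mod_cast this
  have hθN : 4 ≤ θ * N := by
    have h1 : 4 / θ ≤ N := by linarith
    rwa [div_le_iff₀ hθ, mul_comm] at h1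
  have hNM : N ≤ M := by
    have : (N : ℝ) ≤ M := by nlinarith
    exact_mod_cast this
  rw [← hM]
  obtain ⟨A, hA⟩ : ∃ A : ℕ, A = (2 * N + 1) ^ 2 := ⟨_, rfl⟩
  obtain ⟨B, hB⟩ : ∃ B : ℕ, B = (2 * M + 1) ^ 2 := ⟨_, rfl⟩
  have hBX : B ≤ X := by
    rw [hB, hX]
    apply Nat.pow_le_pow_left
    omega
  have hAr : (A : ℝ) = (2 * N + 1) ^ 2 := by rw [hA]; push_cast; rfl
  have hBr : (B : ℝ) = (2 * M + 1) ^ 2 := by rw [hB]; push_cast; rfl
  have hBA : 4 * θ * (N : ℝ) ^ 2 ≤ (B : ℝ) - A := by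
    rw [hAr, hBr]
    have e1 : (2 * (M : ℝ) + 1) ^ 2 - (2 * N + 1) ^ 2 = 4 * (M - N) * (M + N + 1) := by ring
    rw [e1]
    have e2 : θ * N / 2 ≤ (M : ℝ) - N := by linarith
    have e3 : 2 * (N : ℝ) ≤ M + N + 1 := by
      have : (N : ℝ) ≤ M := by exact_mod_cast hNM
      linarith
    calc 4 * θ * (N : ℝ) ^ 2 = 4 * (θ * N / 2) * (2 * N) := by ring
      _ ≤ 4 * ((M : ℝ) - N) * (M + N + 1) := by
          apply mul_le_mul _ e3 (by positivity)
          · linarith [mul_pos hθ hN0]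
          · linarith
  obtain ⟨hcount, hcov⟩ := HI A B hBX (by nlinarith)
  rw [← hV] at hcount hcov
  obtain ⟨GG, hGG⟩ : ∃ GG : Finset ℕ, GG = GoodI (fun _ => 1) (co f) 0 j.succ t X (ε * Real.log X)
    ((X : ℝ) ^ (β / 3)) A B := ⟨_, rfl⟩
  rw [← hGG] at hcount hcov
  obtain ⟨P, p1, p2, p3⟩ := hcov (fun n => finProdFinEquiv (χ n, (⟨kk n % 2, Nat.mod_lt _ (by norm_num)⟩ : Fin 2)))
  have hcol : ∀ z ∈ P, ∀ i < s, χ (z.1 + i * z.2) = χ z.1 ∧ kk (z.1 + i * z.2) % 2 = kk z.1 % 2 := by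
    intro z hz i hi
    have h5 := finProdFinEquiv.injective ((p1 z hz).2.2 i hi).2
    rw [Prod.mk.injEq] at h5
    exact ⟨h5.1, by simpa using congrArg Fin.val h5.2⟩
  -- the good arguments
  have hgood : ∀ n ∈ GG, (A < n ∧ n ≤ B) ∧ Good f j t N (ε * Real.log N) ((N : ℝ) ^ β) n := by
    intro n hn
    rw [hGG] at hn
    unfold GoodI GoodL at hn
    rw [mem_filter, mem_filter, mem_Ioc] at hn
    obtain ⟨⟨g1, g3, g4, g5⟩, g6⟩ := hn
    have e0 : (1 : ℤ) * (n : ℤ) + co f 0 = n := by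
      unfold co
      rw [Fin.cons_zero]
      ring
    have ej : (1 : ℤ) * (n : ℤ) + co f j.succ = n + f j := by
      unfold co
      rw [Fin.cons_succ, one_mul]
    rw [e0, Int.natAbs_natCast] at g3
    rw [ej] at g4
    refine ⟨g1, g3, ⟨g4.1, g4.2.1, fun q hq hd => lt_of_le_of_lt ?_ (g4.2.2 q hq hd)⟩, fun v hv => ?_,
      fun v hv z hz1 hz2 => ?_⟩
    · calc (N : ℝ) ^ (2 / 9 : ℝ) = ((N : ℝ) ^ (2 : ℝ)) ^ (1 / 9 : ℝ) := by
            rw [← Real.rpow_mul hN0.le]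
            norm_num
        _ ≤ (X : ℝ) ^ (1 / 9 : ℝ) := by
            apply Real.rpow_le_rpow (by positivity) _ (by norm_num)
            rw [Real.rpow_two]
            exact hXN2
    · obtain ⟨l, rfl⟩ := (vals_iff f n v).1 hv
      refine ⟨(g5 l).1, (g5 l).2.1, fun q hq hd => lt_of_le_of_lt ?_ ((g5 l).2.2 q hq hd)⟩
      exact Real.rpow_le_rpow hN0.le (by exact_mod_cast hNX) (by positivity)
    · obtain ⟨l, rfl⟩ := (vals_iff f n v).1 hv
      obtain ⟨q, hq1, hq2, hq3⟩ := g6 l z (hz1.trans (by gcongr)) (fun l' => hz2 _ ((vals_iff f n _).2 ⟨l', rfl⟩))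
      refine ⟨q, hq1, hq2.trans ?_, hq3⟩
      calc (X : ℝ) ^ (β / 3) ≤ ((N : ℝ) ^ (3 : ℝ)) ^ (β / 3) := by
            apply Real.rpow_le_rpow hX0.le _ (by positivity)
            rw [show (3 : ℝ) = ((3 : ℕ) : ℝ) by norm_num, Real.rpow_natCast]
            exact hXN3
        _ = (N : ℝ) ^ β := by
            rw [← Real.rpow_mul hN0.le]
            congr 1
            ring
  have hcovGG : P.biUnion (apSet s) ⊆ GG := by
    intro y hy
    rw [mem_biUnion] at hy
    obtain ⟨z, hz, hyz⟩ := hy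
    unfold apSet at hyz
    rw [mem_image] at hyz
    obtain ⟨i, hi, rfl⟩ := hyz
    exact ((p1 z hz).2.2 i (mem_range.1 hi)).1
  have hkN : ∀ n, A < n → n < B → N < kk n ∧ kk n ≤ M := by
    intro n h1 h2
    unfold kk
    rw [hA] at h1
    rw [hB] at h2
    have e1 : 2 * N + 1 ≤ Nat.sqrt n := by
      rw [Nat.le_sqrt']
      omega
    have e2 : Nat.sqrt n < 2 * M + 1 := by
      rw [Nat.sqrt_lt']
      omega
    omega
  have hnB : ∀ n ∈ GG, n < B := by
    intro n hn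
    obtain ⟨h1, h2⟩ := hgood n hn
    refine lt_of_le_of_ne h1.2 ?_
    rintro rfl
    apply h2.1.prime.not_isSquare
    rw [hB]
    exact ⟨2 * M + 1, by ring⟩
  -- the progressions stay in one interval
  have hstep : ∀ n b : ℕ, A < n → b ≤ 8 * N → kk (n + b) = kk n ∨ kk (n + b) = kk n + 1 := by
    intro n b h1 h2
    have hkn : N < kk n := by
      unfold kk
      rw [hA] at h1
      have e1 : 2 * N + 1 ≤ Nat.sqrt n := by
        rw [Nat.le_sqrt']
        omega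
      omega
    obtain ⟨e1, e2⟩ := (kk_spec n (kk n) (by omega)).1 rfl
    have e3 : kk n ≤ kk (n + b) := by
      unfold kk
      have := Nat.sqrt_le_sqrt (Nat.le_add_right n b)
      omega
    have e4 : kk (n + b) ≤ kk n + 1 := by
      have e5 : n + b < (2 * (kk n + 1) + 1) ^ 2 := by nlinarith
      have e6 : Nat.sqrt (n + b) < 2 * (kk n + 1) + 1 := by
        rw [Nat.sqrt_lt']
        exact e5
      have e7 : kk (n + b) = (Nat.sqrt (n + b) + 1) / 2 := rfl
      omega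
    omega
  have hbN : ∀ z ∈ P, z.2 ≤ 8 * N := by
    intro z hz
    have h1 := (p1 z hz).2.1
    have h2 : (z.2 : ℝ) ≤ N := by
      refine h1.trans (le_trans ?_ hN2')
      rw [← mul_pow]
      exact pow_le_pow_left₀ hlogX.le hlogX3 c
    have h3 : z.2 ≤ N := by exact_mod_cast h2
    omega
  have hsame : ∀ z ∈ P, ∀ i < s, kk (z.1 + i * z.2) = kk z.1 := by
    intro z hz i
    induction i with
    | zero => intro _; simp
    | succ i ih =>
      intro hi
      have h1 := ih (by omega)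
      have h2 := (hcol z hz (i + 1) hi).2
      have h3 := (hcol z hz i (by omega)).2
      have h4 := hstep (z.1 + i * z.2) z.2 (hgood _ ((p1 z hz).2.2 i (by omega)).1).1.1 (hbN z hz)
      have e : z.1 + (i + 1) * z.2 = z.1 + i * z.2 + z.2 := by ring
      rw [e] at h2 ⊢
      omega
  -- covered elements are in `InProg`
  have hin : ∀ n ∈ P.biUnion (apSet s), n ∈ InProg f j t N (ε * Real.log N) ((N : ℝ) ^ β) χ s
      (Real.log N ^ (c + 1)) (kk n) := by
    intro n hn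
    have hnG := hcovGG hn
    rw [mem_biUnion] at hn
    obtain ⟨z, hz, hnz⟩ := hn
    unfold apSet at hnz
    rw [mem_image] at hnz
    obtain ⟨i₀, hi₀, rfl⟩ := hnz
    rw [mem_range] at hi₀
    have hk1 : 1 ≤ kk (z.1 + i₀ * z.2) := by
      have := (hkN _ (hgood _ hnG).1.1 (hnB _ hnG)).1
      omega
    unfold InProg
    rw [mem_filter]
    refine ⟨kk_I _ _ hk1 (hgood _ hnG).2.1 rfl, z.1, z.2, (p1 z hz).1, ?_, ⟨i₀, hi₀, rfl⟩, fun i hi => ⟨?_, ?_, ?_⟩⟩
    · calc (z.2 : ℝ) ≤ Real.log X ^ c := (p1 z hz).2.1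
        _ ≤ (3 * Real.log N) ^ c := pow_le_pow_left₀ hlogX.le hlogX3 c
        _ = 3 ^ c * Real.log N ^ c := mul_pow _ _ _
        _ ≤ Real.log N * Real.log N ^ c := by gcongr
        _ = Real.log N ^ (c + 1) := by ring
    · apply kk_I _ _ hk1 (hgood _ ((p1 z hz).2.2 i hi).1).2.1
      rw [hsame z hz i hi, hsame z hz i₀ hi₀]
    · exact (hgood _ ((p1 z hz).2.2 i hi).1).2
    · rw [(hcol z hz i hi).1, (hcol z hz i₀ hi₀).1]
  -- the count
  have hcc : κ / 2 * ((B : ℝ) - A) * V ≤ ((P.biUnion (apSet s)).card : ℝ) := by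
    have h5 : ((GG \ P.biUnion (apSet s)).card : ℝ) + ((P.biUnion (apSet s)).card : ℝ) = GG.card := by
      exact_mod_cast card_sdiff_add_card_eq_card hcovGG
    linarith
  have hsum : ((P.biUnion (apSet s)).card : ℝ) ≤ ∑ k ∈ Ioc N M,
      (((P.biUnion (apSet s)).filter (fun n => kk n = k)).card : ℝ) := by
    have h6 : P.biUnion (apSet s) ⊆ (Ioc N M).biUnion (fun k => (P.biUnion (apSet s)).filter (fun n => kk n = k)) := by
      intro n hn
      rw [mem_biUnion]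
      obtain ⟨e1, e2⟩ := hkN n (hgood n (hcovGG hn)).1.1 (hnB n (hcovGG hn))
      exact ⟨kk n, mem_Ioc.2 ⟨e1, e2⟩, mem_filter.2 ⟨hn, rfl⟩⟩
    exact_mod_cast (card_le_card h6).trans card_biUnion_le
  -- the upper bound
  have hup : ∀ k ∈ Ioc N M, (((P.biUnion (apSet s)).filter (fun n => kk n = k)).card : ℝ) ≤ 16 * KU * N * V := by
    intro k hk
    rw [mem_Ioc] at hk
    obtain ⟨Ak, hAk⟩ : ∃ Ak : ℕ, Ak = (2 * k - 1) ^ 2 - 1 := ⟨_, rfl⟩
    obtain ⟨Bk, hBk⟩ : ∃ Bk : ℕ, Bk = (2 * k + 1) ^ 2 - 1 := ⟨_, rfl⟩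
    obtain ⟨k', rfl⟩ : ∃ k' : ℕ, k = k' + 1 := ⟨k - 1, by omega⟩
    have e0 : 2 * (k' + 1) - 1 = 2 * k' + 1 := by omega
    rw [e0] at hAk
    have hdiff : Bk = Ak + 8 * (k' + 1) := by
      rw [hAk, hBk]
      have h1 : 1 ≤ (2 * k' + 1) ^ 2 := Nat.one_le_pow _ _ (by omega)
      have h2 : (2 * (k' + 1) + 1) ^ 2 = (2 * k' + 1) ^ 2 + 8 * (k' + 1) := by ring
      omega
    have hBkX : Bk ≤ X := by
      rw [hBk, hX]
      have h1 : (2 * (k' + 1) + 1) ^ 2 ≤ (4 * N + 1) ^ 2 := Nat.pow_le_pow_left (by omega) 2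
      omega
    have hsubk : (P.biUnion (apSet s)).filter (fun n => kk n = k' + 1) ⊆
        RL (fun _ => 1) (co f) ((X : ℝ) ^ (1 / (t : ℝ))) Ak Bk := by
      intro n hn
      rw [mem_filter] at hn
      obtain ⟨hn1, hn2⟩ := hn
      have hn3 := hcovGG hn1
      obtain ⟨e1, e2⟩ := (kk_spec n (k' + 1) (by omega)).1 hn2
      rw [e0] at e1
      rw [hGG] at hn3
      unfold GoodI GoodL at hn3
      rw [mem_filter, mem_filter] at hn3
      unfold RL
      rw [mem_filter, mem_Ioc]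
      have h1 : 1 ≤ (2 * k' + 1) ^ 2 := Nat.one_le_pow _ _ (by omega)
      refine ⟨⟨by omega, by omega⟩, fun l p hp hpy hd => ?_⟩
      have := (hn3.1.2.2.2 l).2.2 p hp hd
      linarith
    have hdr : (Bk : ℝ) - Ak = 8 * (k' + 1) := by rw [hdiff]; push_cast; ring
    have hk'r : (N : ℝ) ≤ (k' : ℝ) + 1 := by exact_mod_cast (by omega : N ≤ k' + 1)
    have hk'2 : (k' : ℝ) + 1 ≤ 2 * N := by exact_mod_cast (by omega : k' + 1 ≤ 2 * N)
    have hlen : (X : ℝ) ^ (1 / 3 : ℝ) ≤ (Bk : ℝ) - Ak := by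
      rw [hdr]
      have h1 : (X : ℝ) ^ (1 / 3 : ℝ) ≤ N := by
        calc (X : ℝ) ^ (1 / 3 : ℝ) ≤ ((N : ℝ) ^ (3 : ℝ)) ^ (1 / 3 : ℝ) := by
              apply Real.rpow_le_rpow hX0.le _ (by norm_num)
              rw [show (3 : ℝ) = ((3 : ℕ) : ℝ) by norm_num, Real.rpow_natCast]
              exact hXN3
          _ = N := by
              rw [← Real.rpow_mul hN0.le]
              norm_num
      linarith
    have h7 := HR X (by omega) (fun _ => 1) (co f) (fun _ => one_ne_zero) (fun _ => by norm_num) Ak Bk hBkX hlen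
    rw [← hV, hdr] at h7
    calc (((P.biUnion (apSet s)).filter (fun n => kk n = k' + 1)).card : ℝ)
        ≤ ((RL (fun _ => 1) (co f) ((X : ℝ) ^ (1 / (t : ℝ))) Ak Bk).card : ℝ) := by exact_mod_cast card_le_card hsubk
      _ ≤ KU * (8 * (k' + 1)) * V := h7
      _ ≤ KU * (8 * (2 * N)) * V := by gcongr
      _ = 16 * KU * N * V := by ring
  -- the large intervals
  obtain ⟨big, hbig⟩ : ∃ big : Finset ℕ, big = (Ioc N M).filter (fun k => κ * N * V ≤
    (((P.biUnion (apSet s)).filter (fun n => kk n = k)).card : ℝ)) := ⟨_, rfl⟩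
  have hMN : ((Ioc N M).card : ℝ) ≤ θ * N := by
    rw [Nat.card_Ioc, Nat.cast_sub hNM]
    linarith
  have htot : ∑ k ∈ Ioc N M, (((P.biUnion (apSet s)).filter (fun n => kk n = k)).card : ℝ) ≤
      big.card * (16 * KU * N * V) + θ * N * (κ * N * V) := by
    rw [← sum_filter_add_sum_filter_not (Ioc N M) (fun k => κ * N * V ≤
      (((P.biUnion (apSet s)).filter (fun n => kk n = k)).card : ℝ)), ← hbig]
    apply add_le_add
    · have := sum_le_card_nsmul big (fun k => (((P.biUnion (apSet s)).filter (fun n => kk n = k)).card : ℝ))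
        (16 * KU * N * V) (fun k hk => hup k (by rw [hbig, mem_filter] at hk; exact hk.1))
      rwa [nsmul_eq_mul] at this
    · have := sum_le_card_nsmul ((Ioc N M).filter (fun k => ¬ κ * N * V ≤
          (((P.biUnion (apSet s)).filter (fun n => kk n = k)).card : ℝ)))
        (fun k => (((P.biUnion (apSet s)).filter (fun n => kk n = k)).card : ℝ))
        (κ * N * V) (fun k hk => by rw [mem_filter] at hk; exact (not_le.1 hk.2).le)
      rw [nsmul_eq_mul] at this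
      refine this.trans ?_
      apply mul_le_mul_of_nonneg_right _ (by positivity)
      refine le_trans ?_ hMN
      exact_mod_cast card_le_card (filter_subset _ _)
  have hlow : 2 * κ * θ * N ^ 2 * V ≤ big.card * (16 * KU * N * V) + θ * N * (κ * N * V) := by
    refine le_trans ?_ (hcc.trans (hsum.trans htot))
    calc 2 * κ * θ * N ^ 2 * V = κ / 2 * (4 * θ * N ^ 2) * V := by ring
      _ ≤ κ / 2 * ((B : ℝ) - A) * V := by gcongr
  have hbigc : κ / (16 * KU) * (θ * N) ≤ big.card := by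
    have h1 : κ * θ * N * (N * V) ≤ big.card * (16 * KU) * (N * V) := by nlinarith
    have h2 : κ * θ * N ≤ big.card * (16 * KU) := le_of_mul_le_mul_right h1 (by positivity)
    rw [div_mul_eq_mul_div, div_le_iff₀ (by positivity)]
    linarith
  have hfin : big ⊆ (Ioc N M).filter (fun k => κ₀ * (N / Real.log N ^ (J + 1)) ≤
      ((InProg f j t N (ε * Real.log N) ((N : ℝ) ^ β) χ s (Real.log N ^ (c + 1)) k).card : ℝ)) := by
    intro k hk
    rw [hbig, mem_filter] at hk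
    rw [mem_filter]
    refine ⟨hk.1, ?_⟩
    have h1 : (P.biUnion (apSet s)).filter (fun n => kk n = k) ⊆
        InProg f j t N (ε * Real.log N) ((N : ℝ) ^ β) χ s (Real.log N ^ (c + 1)) k := by
      intro n hn
      rw [mem_filter] at hn
      have := hin n hn.1
      rwa [hn.2] at this
    have h2 : (((P.biUnion (apSet s)).filter (fun n => kk n = k)).card : ℝ) ≤
        ((InProg f j t N (ε * Real.log N) ((N : ℝ) ^ β) χ s (Real.log N ^ (c + 1)) k).card : ℝ) := by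
      exact_mod_cast card_le_card h1
    refine le_trans ?_ (hk.2.trans h2)
    have h3 : κ₀ ≤ κ ^ 2 / 3 ^ (J + 1) := by rw [hκ₀]; exact min_le_right _ _
    calc κ₀ * (N / Real.log N ^ (J + 1)) ≤ κ ^ 2 / 3 ^ (J + 1) * (N / Real.log N ^ (J + 1)) := by gcongr
      _ = κ * N * (κ / (3 * Real.log N) ^ (J + 1)) := by rw [mul_pow]; field_simp
      _ ≤ κ * N * (κ / Real.log X ^ (J + 1)) := by gcongr
      _ ≤ κ * N * V := by gcongr
  have h4 : κ₀ ≤ κ / (16 * KU) := by rw [hκ₀]; exact min_le_left _ _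
  calc κ₀ * (θ * N) ≤ κ / (16 * KU) * (θ * N) := by gcongr
    _ ≤ big.card := hbigc
    _ ≤ _ := by exact_mod_cast card_le_card hfin

end Pool.Agent.Results.MP_3a3367_nt.PositiveProportion
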