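import Pool.Agent.Results.MP_3efbeb_nt.IsolatedClusters

set_option autoImplicit false

/-!
# Isolated clusters of many primes in a positive proportion of the intervals between odd squares (helper2)

`I k` is the set of the integers between `(2 k - 1) ^ 2` and `(2 k + 1) ^ 2`. Let `S` be an admissible set of shifts with
`|S| ≥ n₀`. For a positive proportion of the `k` in `(N, 2 N]` the interval `I k` contains the whole cluster `n + s`,
`s ∈ S`, for at least `κ N / (log N) ^ |S|` numbers `n` such that at least `c log |S|` of the `n + s` are primes, all the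
`n + s` are products of at most `t` primes, all large, and every other integer near one of the multiples `j n`,
`1 ≤ |j| ≤ J`, has a prime factor `≤ N ^ β`. These `n` can be taken from arithmetic progressions of `l` such numbers of
the same colour, with clusters in `I k` and differences at most a power of `log N`, along which the positions of the primes
do not change.
-/

namespace Pool.Agent.Results.MP_3a3367_nt.PrimeClusters

open Finset Filter
open Pool.Agent.X32.Uni Pool.Agent.T6.H2.PT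

/-- the set of shifts is admissible: no prime divides one of the numbers `n + s` for all `n` -/
def Admissible (S : Finset ℕ) : Prop := ∀ p : ℕ, p.Prime → ∃ n : ℕ, ∀ s ∈ S, ¬ p ∣ n + s

/-- `v` is a product of at most `r` primes, all of them larger than `y` -/
def AlmostPrime (r : ℕ) (y : ℝ) (v : ℕ) : Prop :=
  1 < v ∧ v.primeFactorsList.length ≤ r ∧ ∀ q : ℕ, q.Prime → q ∣ v → y < q

/-- the integers between `(2 k - 1) ^ 2` and `(2 k + 1) ^ 2` (for `k ≥ 1`) -/
def I (k : ℕ) : Finset ℕ := Ioo ((2 * k - 1) ^ 2) ((2 * k + 1) ^ 2)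

/-- every `n + s`, `s ∈ S`, is a product of at most `t` primes `> N ^ (1/t)`, at least `m` of the `n + s` are primes, and
every integer `z` with `|z - j n| ≤ w` for some integer `j` with `1 ≤ |j| ≤ J` which is none of the `± (n + s)` has a
prime factor `≤ y` -/
def Good (S : Finset ℕ) (m : ℝ) (t J N : ℕ) (w y : ℝ) (n : ℕ) : Prop :=
  (∀ s ∈ S, AlmostPrime t ((N : ℝ) ^ (1 / (t : ℝ))) (n + s)) ∧
    m ≤ ((S.filter (fun s => (n + s).Prime)).card : ℝ) ∧
    ∀ j z : ℤ, j ≠ 0 → |j| ≤ J → |(z : ℝ) - j * n| ≤ w → (∀ s ∈ S, z ≠ n + s ∧ z ≠ -(n + s)) →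
      ∃ q : ℕ, q.Prime ∧ (q : ℝ) ≤ y ∧ (q : ℤ) ∣ z

open Classical in
/-- the `n` in `I k` which are a term of a progression with `l` terms in `I k`, of difference `≤ D`, whose terms `n'` are
good, have all the `n' + s`, `s ∈ S`, in `I k`, have the colour of `n`, and have the primes at the same positions as
`n` -/
noncomputable def InProg (S : Finset ℕ) (m : ℝ) (t J N : ℕ) (w y : ℝ) {r : ℕ} (χ : ℕ → Fin r) (l : ℕ) (D : ℝ)
    (k : ℕ) : Finset ℕ :=
  (I k).filter (fun n => ∃ x b : ℕ, 1 ≤ b ∧ (b : ℝ) ≤ D ∧ (∃ i < l, n = x + i * b) ∧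
    ∀ i < l, x + i * b ∈ I k ∧ (∀ s ∈ S, x + i * b + s ∈ I k) ∧ Good S m t J N w y (x + i * b) ∧
      χ (x + i * b) = χ n ∧ ∀ s ∈ S, (x + i * b + s).Prime ↔ (n + s).Prime)

/-- the index of the interval -/
def kk (n : ℕ) : ℕ := (Nat.sqrt n + 1) / 2

theorem kk_spec (n k : ℕ) (hk : 1 ≤ k) : kk n = k ↔ (2 * k - 1) ^ 2 ≤ n ∧ n < (2 * k + 1) ^ 2 := by
  unfold kk
  have h1 : (2 * k - 1) ^ 2 ≤ n ↔ 2 * k - 1 ≤ Nat.sqrt n := by rw [Nat.le_sqrt', pow_two]
  have h2 : n < (2 * k + 1) ^ 2 ↔ Nat.sqrt n < 2 * k + 1 := by rw [Nat.sqrt_lt', pow_two]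
  rw [h1, h2]
  omega

/-- the interval of `n` contains `n`, ..., `n + D` -/
def Ins (D n : ℕ) : Prop := (2 * kk n - 1) ^ 2 < n ∧ n + D < (2 * kk n + 1) ^ 2

theorem Ins.mem {D n s : ℕ} (h : Ins D n) (hs : s ≤ D) : n + s ∈ I (kk n) := by
  unfold I
  rw [mem_Ioo]
  exact ⟨by have := h.1; omega, by have := h.2; omega⟩

open Classical in
/-- few `n` are near the end of an interval -/
theorem few (D N : ℕ) (T : Finset ℕ) (hT : ∀ n ∈ T, N < kk n ∧ kk n ≤ 2 * N) :
    (T.filter (fun n => ¬ Ins D n)).card ≤ (2 * N + 1) * (D + 1) := by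
  have hsub : T.filter (fun n => ¬ Ins D n) ⊆
      (range (2 * N + 1)).biUnion (fun k => (Icc ((2 * k + 1) ^ 2 - D) ((2 * k + 1) ^ 2))) := by
    intro n hn
    rw [mem_filter] at hn
    obtain ⟨h1, h2⟩ := hn
    obtain ⟨h3, h4⟩ := hT n h1
    obtain ⟨h5, h6⟩ := (kk_spec n (kk n) (by omega)).1 rfl
    rw [mem_biUnion]
    unfold Ins at h2
    by_cases h7 : (2 * kk n - 1) ^ 2 < n
    · refine ⟨kk n, mem_range.2 (by omega), mem_Icc.2 ⟨?_, h6.le⟩⟩
      have : ¬ n + D < (2 * kk n + 1) ^ 2 := fun h => h2 ⟨h7, h⟩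
      omega
    · refine ⟨kk n - 1, mem_range.2 (by omega), ?_⟩
      have e : 2 * (kk n - 1) + 1 = 2 * kk n - 1 := by omega
      rw [mem_Icc, e]
      constructor
      · omega
      · omega
  refine (card_le_card hsub).trans (card_biUnion_le.trans ?_)
  calc ∑ k ∈ range (2 * N + 1), (Icc ((2 * k + 1) ^ 2 - D) ((2 * k + 1) ^ 2)).card
      ≤ ∑ _k ∈ range (2 * N + 1), (D + 1) := by
        apply sum_le_sum
        intro k _
        rw [Nat.card_Icc]
        omega
    _ = (2 * N + 1) * (D + 1) := by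
        rw [sum_const, card_range, smul_eq_mul]

open Classical in
/-- **Isolated clusters of many primes in a positive proportion of the intervals between odd squares.** -/
theorem result : ∃ (c : ℝ) (n₀ : ℕ), 0 < c ∧ ∀ S : Finset ℕ, n₀ ≤ S.card → Admissible S →
    ∃ t : ℕ, 1 ≤ t ∧ ∃ κ : ℝ, 0 < κ ∧ ∀ (β : ℝ) (J : ℕ), 0 < β → ∃ ε : ℝ, 0 < ε ∧
      ∀ l r : ℕ, 1 ≤ l → ∃ C N₀ : ℕ, ∀ N : ℕ, N₀ ≤ N → ∀ χ : ℕ → Fin r,
        κ * N ≤ (((Ioc N (2 * N)).filter (fun k => κ * (N / Real.log N ^ S.card) ≤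
          ((InProg S (c * Real.log S.card) t J N (ε * Real.log N) ((N : ℝ) ^ β) χ l (Real.log N ^ C) k).card :
            ℝ))).card : ℝ) := by
  obtain ⟨c, n₀, hc, HS⟩ := Pool.Agent.Results.MP_3efbeb_nt.IsolatedClusters.result
  refine ⟨c, n₀ + 1, hc, fun S hS hadm => ?_⟩
  obtain ⟨t, ht, κ₁, hκ₁, HS⟩ := HS S (by omega) hadm
  have ht0 : (0 : ℝ) < t := by exact_mod_cast ht
  -- the upper bound
  have hshadm : AdmL (fun _ : Fin S.card => (1 : ℤ)) (Pool.Agent.Results.MP_3efbeb_nt.IsolatedClusters.sh S) := by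
    intro p hp
    obtain ⟨n, hn⟩ := hadm p hp
    refine ⟨n, fun l hd => ?_⟩
    obtain ⟨s, hs, he⟩ := Pool.Agent.Results.MP_3efbeb_nt.IsolatedClusters.sh_mem S l
    rw [he, one_mul] at hd
    exact hn s hs (by exact_mod_cast hd)
  obtain ⟨b₀, hb₀⟩ : ∃ b₀ : Fin S.card → ℤ, b₀ = Pool.Agent.Results.MP_3efbeb_nt.IsolatedClusters.sh S := ⟨_, rfl⟩
  have hb₀m : ∀ i : Fin S.card, ∃ s ∈ S, b₀ i = s := by
    rw [hb₀]
    exact Pool.Agent.Results.MP_3efbeb_nt.IsolatedClusters.sh_mem S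
  have hdet : ∀ l m : Fin S.card, l ≠ m → (1 : ℤ) * b₀ m - 1 * b₀ l ≠ 0 := by
    intro l m hlm he
    rw [hb₀] at he
    exact hlm (Pool.Agent.Results.MP_3efbeb_nt.IsolatedClusters.sh_inj S (by linarith))
  rw [← hb₀] at hshadm
  obtain ⟨CV, hCV, hup⟩ := VL_up' (fun _ : Fin S.card => (1 : ℤ)) b₀ hshadm (fun _ => one_ne_zero) hdet
  obtain ⟨KU, hKU, n₁, HR⟩ := rough_lin S.card 1 (by omega) (1 / 3) (by norm_num) (1 / (2 * (t : ℝ))) (by positivity)
  obtain ⟨a, ha⟩ : ∃ a : ℝ, a = κ₁ / (2 * 3 ^ S.card) := ⟨_, rfl⟩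
  obtain ⟨u, hu⟩ : ∃ u : ℝ, u = 16 * KU * CV := ⟨_, rfl⟩
  have ha0 : 0 < a := by rw [ha]; positivity
  have hu0 : 0 < u := by rw [hu]; positivity
  refine ⟨t, ht, min a (a / u), lt_min ha0 (by positivity), fun β J hβ => ?_⟩
  obtain ⟨ε, K', hε, -, HS⟩ := HS (β / 3) J (by positivity)
  refine ⟨ε, hε, fun l r hl => ?_⟩
  obtain ⟨C, X₀, HS⟩ := HS l (r * (2 * 2)) (κ₁ / 2) hl (by positivity)
  obtain ⟨D, hD⟩ : ∃ D : ℕ, D = S.sup id := ⟨_, rfl⟩
  have hDs : ∀ s ∈ S, s ≤ D := by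
    intro s hs
    rw [hD]
    exact Finset.le_sup (f := id) hs
  have hlogE : ∀ (m : ℕ) (M : ℝ), ∀ᶠ N : ℕ in atTop, M * Real.log N ^ m ≤ N := by
    intro m M
    have h1 := (tendsto_natCast_atTop_atTop (R := ℝ)).eventually
      ((isLittleO_log_rpow_rpow_atTop (m : ℝ) (show (0 : ℝ) < 1 by norm_num)).bound
        (show (0 : ℝ) < 1 / (|M| + 1) by positivity))
    filter_upwards [h1, eventually_ge_atTop 1] with N h2 hN
    have hN0 : (0 : ℝ) < N := by exact_mod_cast hN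
    rw [Real.norm_eq_abs, Real.norm_eq_abs, Real.rpow_one, Real.rpow_natCast, abs_of_pos hN0,
      abs_of_nonneg (pow_nonneg (Real.log_nonneg (by exact_mod_cast hN)) _)] at h2
    have h3 : 0 ≤ Real.log N ^ m := pow_nonneg (Real.log_nonneg (by exact_mod_cast hN)) _
    calc M * Real.log N ^ m ≤ (|M| + 1) * Real.log N ^ m :=
          mul_le_mul_of_nonneg_right (by linarith [le_abs_self M]) h3
      _ ≤ (|M| + 1) * (1 / (|M| + 1) * N) := by gcongr
      _ = N := by field_simp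
  have hXt : Tendsto (fun N : ℕ => (4 * N + 1) ^ 2) atTop atTop :=
    tendsto_atTop_mono (fun n => by show n ≤ (4 * n + 1) ^ 2; nlinarith) tendsto_id
  have hlog3 : ∀ᶠ N : ℕ in atTop, (3 : ℝ) ^ C ≤ Real.log N :=
    (Real.tendsto_log_atTop.comp tendsto_natCast_atTop_atTop).eventually_ge_atTop _
  obtain ⟨N₁, hN₁⟩ := eventually_atTop.1 (((hlogE S.card (3 * (D + 1) / (2 * a))).and (hlogE C (3 ^ C))).and
    ((hXt.eventually hup).and hlog3))
  refine ⟨C + 1, N₁ + X₀ + n₁ + 30, fun N hN χ => ?_⟩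
  obtain ⟨⟨hE1, hE2⟩, hE3, hE4⟩ := hN₁ N (by omega)
  have hN0 : (0 : ℝ) < N := by exact_mod_cast (by omega : 0 < N)
  have hN30 : (30 : ℝ) ≤ N := by exact_mod_cast (by omega : 30 ≤ N)
  have hlogN : 0 < Real.log N := Real.log_pos (by linarith)
  have hLv : 0 < Real.log N ^ S.card := pow_pos hlogN _
  obtain ⟨X, hX⟩ : ∃ X : ℕ, X = (2 * N + 1) ^ 2 := ⟨_, rfl⟩
  have hXr : (X : ℝ) = (2 * N + 1) ^ 2 := by rw [hX]; push_cast; rfl
  have hNX : N ≤ X := by rw [hX]; nlinarith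
  have hXN3 : (X : ℝ) ≤ (N : ℝ) ^ 3 := by rw [hXr]; nlinarith
  have hXN2 : 4 * (N : ℝ) ^ 2 ≤ X := by rw [hXr]; nlinarith
  have hX0 : (0 : ℝ) < X := by nlinarith
  have hlogX3 : Real.log X ≤ 3 * Real.log N := by
    calc Real.log X ≤ Real.log ((N : ℝ) ^ 3) := Real.log_le_log hX0 hXN3
      _ = 3 * Real.log N := by rw [Real.log_pow]; push_cast; ring
  have hlogNX : Real.log N ≤ Real.log X := Real.log_le_log hN0 (by exact_mod_cast hNX)
  have hlogX : 0 < Real.log X := by linarith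
  obtain ⟨Y, hY⟩ : ∃ Y : ℕ, Y = (4 * N + 1) ^ 2 := ⟨_, rfl⟩
  have hYr : (Y : ℝ) = (4 * N + 1) ^ 2 := by rw [hY]; push_cast; rfl
  have hYN3 : (Y : ℝ) ≤ (N : ℝ) ^ 3 := by rw [hYr]; nlinarith
  have hY0 : (0 : ℝ) < Y := by rw [hYr]; positivity
  have hYX2 : (Y : ℝ) ≤ (X : ℝ) ^ 2 := by rw [hYr, hXr]; nlinarith
  rw [← hY] at hE3
  have h3XY : 3 * X < Y := by
    rw [hX, hY]
    nlinarith
  -- the good arguments
  obtain ⟨GG, hGG⟩ : ∃ GG : Finset ℕ, GG = Pool.Agent.Results.MP_3efbeb_nt.IsolatedClusters.Good S (c * Real.log S.card) t J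
    X (ε * Real.log X) ((X : ℝ) ^ (β / 3)) := ⟨_, rfl⟩
  obtain ⟨hcount, -, hcov⟩ := HS X (by omega)
  rw [← hGG] at hcount hcov
  obtain ⟨P, p1, p2, p3⟩ := hcov (fun n => finProdFinEquiv (χ n, finProdFinEquiv
    ((⟨kk n % 2, Nat.mod_lt _ (by norm_num)⟩ : Fin 2), (if Ins D n then 0 else 1 : Fin 2))))
  have hcol : ∀ z ∈ P, ∀ i < l, χ (z.1 + i * z.2) = χ z.1 ∧ kk (z.1 + i * z.2) % 2 = kk z.1 % 2 ∧
      (Ins D (z.1 + i * z.2) ↔ Ins D z.1) := by
    intro z hz i hi
    have h5 := finProdFinEquiv.injective ((p1 z hz).2.2 i hi).2.1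
    rw [Prod.mk.injEq] at h5
    have h6 := finProdFinEquiv.injective h5.2
    rw [Prod.mk.injEq] at h6
    refine ⟨h5.1, by simpa using congrArg Fin.val h6.1, ?_⟩
    have h7 := h6.2
    by_cases e1 : Ins D (z.1 + i * z.2) <;> by_cases e2 : Ins D z.1
    · exact ⟨fun _ => e2, fun _ => e1⟩
    · rw [if_pos e1, if_neg e2] at h7
      exact absurd h7 (by decide)
    · rw [if_neg e1, if_pos e2] at h7
      exact absurd h7 (by decide)
    · exact ⟨fun h => absurd h e1, fun h => absurd h e2⟩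
  have hgood : ∀ n ∈ GG, (X < n ∧ n ≤ 3 * X) ∧ Good S (c * Real.log S.card) t J N (ε * Real.log N) ((N : ℝ) ^ β) n := by
    intro n hn
    rw [hGG] at hn
    unfold Pool.Agent.Results.MP_3efbeb_nt.IsolatedClusters.Good at hn
    rw [mem_filter, mem_Ioc] at hn
    obtain ⟨g1, g2, g3, g4⟩ := hn
    refine ⟨g1, fun s hs => ⟨(g2 s hs).1, (g2 s hs).2.1, fun q hq hd => lt_of_le_of_lt ?_ ((g2 s hs).2.2 q hq hd)⟩,
      g3, fun j z hj hj' hz hz' => ?_⟩
    · exact Real.rpow_le_rpow hN0.le (by exact_mod_cast hNX) (by positivity)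
    · obtain ⟨q, hq1, hq2, hq3⟩ := g4 j z hj hj' (hz.trans (by gcongr)) hz'
      refine ⟨q, hq1, hq2.trans ?_, hq3⟩
      calc (X : ℝ) ^ (β / 3) ≤ ((N : ℝ) ^ (3 : ℝ)) ^ (β / 3) := by
            apply Real.rpow_le_rpow hX0.le _ (by positivity)
            rw [show (3 : ℝ) = ((3 : ℕ) : ℝ) by norm_num, Real.rpow_natCast]
            exact hXN3
        _ = (N : ℝ) ^ β := by
            rw [← Real.rpow_mul hN0.le]
            congr 1
            ring
  have hcovGG : P.biUnion (Pool.Agent.Results.MP_3efbeb_nt.IsolatedClusters.terms l) ⊆ GG := by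
    intro y hy
    rw [mem_biUnion] at hy
    obtain ⟨z, hz, hyz⟩ := hy
    unfold Pool.Agent.Results.MP_3efbeb_nt.IsolatedClusters.terms at hyz
    rw [mem_image] at hyz
    obtain ⟨i, hi, rfl⟩ := hyz
    exact ((p1 z hz).2.2 i (mem_range.1 hi)).1
  have hkN : ∀ n, X < n → n ≤ 3 * X → N < kk n ∧ kk n ≤ 2 * N := by
    intro n h1 h2
    unfold kk
    rw [hX] at h1
    have h3 : n < (4 * N + 1) ^ 2 := by omega
    have e1 : 2 * N + 1 ≤ Nat.sqrt n := by
      rw [Nat.le_sqrt']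
      omega
    have e2 : Nat.sqrt n < 4 * N + 1 := by
      rw [Nat.sqrt_lt']
      omega
    omega
  -- the progressions stay in one interval
  have hstep : ∀ n b : ℕ, X < n → b ≤ 8 * N → kk (n + b) = kk n ∨ kk (n + b) = kk n + 1 := by
    intro n b h1 h2
    have hkn : N < kk n := by
      unfold kk
      rw [hX] at h1
      have e1 : 2 * N + 1 ≤ Nat.sqrt n := by
        rw [Nat.le_sqrt']
        omega
      omega
    obtain ⟨e1, e2⟩ := (kk_spec n (kk n) (by omega)).1 rfl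
    have e3 : kk n ≤ kk (n + b) := by
      unfold kk
      have := Nat.sqrt_le_sqrt (Nat.le_add_right n b)
      omega
    have e4 : kk (n + b) ≤ kk n + 1 := by
      have e5 : n + b < (2 * (kk n + 1) + 1) ^ 2 := by nlinarith
      have e6 : Nat.sqrt (n + b) < 2 * (kk n + 1) + 1 := by
        rw [Nat.sqrt_lt']
        exact e5
      have e7 : kk (n + b) = (Nat.sqrt (n + b) + 1) / 2 := rfl
      omega
    omega
  have hbN : ∀ z ∈ P, z.2 ≤ 8 * N := by
    intro z hz
    have h1 := (p1 z hz).2.1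
    have h2 : (z.2 : ℝ) ≤ N := by
      refine h1.trans (le_trans ?_ hE2)
      rw [← mul_pow]
      exact pow_le_pow_left₀ hlogX.le hlogX3 C
    have h3 : z.2 ≤ N := by exact_mod_cast h2
    omega
  have hsame : ∀ z ∈ P, ∀ i < l, kk (z.1 + i * z.2) = kk z.1 := by
    intro z hz i
    induction i with
    | zero => intro _; simp
    | succ i ih =>
      intro hi
      have h1 := ih (by omega)
      have h2 := (hcol z hz (i + 1) hi).2.1
      have h3 := (hcol z hz i (by omega)).2.1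
      have h4 := hstep (z.1 + i * z.2) z.2 (hgood _ ((p1 z hz).2.2 i (by omega)).1).1.1 (hbN z hz)
      have e : z.1 + (i + 1) * z.2 = z.1 + i * z.2 + z.2 := by ring
      rw [e] at h2 ⊢
      omega
  -- the covered elements
  obtain ⟨T, hT⟩ : ∃ T : Finset ℕ, T = P.biUnion (Pool.Agent.Results.MP_3efbeb_nt.IsolatedClusters.terms l) := ⟨_, rfl⟩
  rw [← hT] at hcovGG p3
  obtain ⟨T', hT'⟩ : ∃ T' : Finset ℕ, T' = T.filter (fun n => Ins D n) := ⟨_, rfl⟩
  have hT'T : T' ⊆ T := by rw [hT']; exact filter_subset _ _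
  have hin : ∀ n ∈ T', n ∈ InProg S (c * Real.log S.card) t J N (ε * Real.log N) ((N : ℝ) ^ β) χ l
      (Real.log N ^ (C + 1)) (kk n) := by
    intro n hn
    have hnG := hcovGG (hT'T hn)
    rw [hT', mem_filter] at hn
    obtain ⟨hn, hins⟩ := hn
    rw [hT, mem_biUnion] at hn
    obtain ⟨z, hz, hnz⟩ := hn
    unfold Pool.Agent.Results.MP_3efbeb_nt.IsolatedClusters.terms at hnz
    rw [mem_image] at hnz
    obtain ⟨i₀, hi₀, rfl⟩ := hnz
    rw [mem_range] at hi₀
    have hins' : ∀ i < l, Ins D (z.1 + i * z.2) := fun i hi =>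
      (hcol z hz i hi).2.2.2 ((hcol z hz i₀ hi₀).2.2.1 hins)
    have hkk : ∀ i < l, kk (z.1 + i * z.2) = kk (z.1 + i₀ * z.2) := fun i hi => by
      rw [hsame z hz i hi, hsame z hz i₀ hi₀]
    unfold InProg
    rw [mem_filter]
    refine ⟨(hins.mem (Nat.zero_le D)), z.1, z.2, (p1 z hz).1, ?_, ⟨i₀, hi₀, rfl⟩, fun i hi => ⟨?_, fun s hs => ?_, ?_, ?_, ?_⟩⟩
    · calc (z.2 : ℝ) ≤ Real.log X ^ C := (p1 z hz).2.1
        _ ≤ (3 * Real.log N) ^ C := pow_le_pow_left₀ hlogX.le hlogX3 C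
        _ = 3 ^ C * Real.log N ^ C := mul_pow _ _ _
        _ ≤ Real.log N * Real.log N ^ C := by gcongr
        _ = Real.log N ^ (C + 1) := by ring
    · rw [← hkk i hi]
      exact (hins' i hi).mem (Nat.zero_le D)
    · rw [← hkk i hi]
      exact (hins' i hi).mem (hDs s hs)
    · exact (hgood _ ((p1 z hz).2.2 i hi).1).2
    · rw [(hcol z hz i hi).1, (hcol z hz i₀ hi₀).1]
    · intro s hs
      rw [((p1 z hz).2.2 i hi).2.2 s hs, ((p1 z hz).2.2 i₀ hi₀).2.2 s hs]
  -- the count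
  have hTX : ∀ n ∈ T, N < kk n ∧ kk n ≤ 2 * N := fun n hn =>
    hkN n (hgood n (hcovGG hn)).1.1 (hgood n (hcovGG hn)).1.2
  have hfew := few D N T hTX
  have hXL : 4 * a * (N : ℝ) ^ 2 / Real.log N ^ S.card ≤ κ₁ / 2 * X / Real.log X ^ S.card := by
    have e1 : Real.log X ^ S.card ≤ 3 ^ S.card * Real.log N ^ S.card := by
      rw [← mul_pow]
      exact pow_le_pow_left₀ hlogX.le hlogX3 _
    calc 4 * a * (N : ℝ) ^ 2 / Real.log N ^ S.card =
          κ₁ / 2 * (4 * (N : ℝ) ^ 2) / (3 ^ S.card * Real.log N ^ S.card) := by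
          rw [ha]
          field_simp
      _ ≤ κ₁ / 2 * X / (3 ^ S.card * Real.log N ^ S.card) := by gcongr
      _ ≤ κ₁ / 2 * X / Real.log X ^ S.card := by
          apply div_le_div_of_nonneg_left (by positivity) (by positivity) e1
  have hTc : 4 * a * (N : ℝ) ^ 2 / Real.log N ^ S.card ≤ (T.card : ℝ) := by
    have h5 : ((GG \ T).card : ℝ) + (T.card : ℝ) = GG.card := by
      exact_mod_cast card_sdiff_add_card_eq_card hcovGG
    have h6 : κ₁ * X / Real.log X ^ S.card = κ₁ / 2 * X / Real.log X ^ S.card + κ₁ / 2 * X / Real.log X ^ S.card := by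
      ring
    linarith
  have hfew' : ((T.filter (fun n => ¬ Ins D n)).card : ℝ) ≤ 2 * a * (N : ℝ) ^ 2 / Real.log N ^ S.card := by
    have h5 : ((T.filter (fun n => ¬ Ins D n)).card : ℝ) ≤ (2 * N + 1) * (D + 1) := by exact_mod_cast hfew
    refine h5.trans ?_
    rw [le_div_iff₀ hLv]
    have h6 : 3 * (D + 1) * Real.log N ^ S.card ≤ 2 * a * N := by
      have e1 : 3 * (D + 1) / (2 * a) * Real.log N ^ S.card = 3 * (D + 1) * Real.log N ^ S.card / (2 * a) := by ring
      rw [e1, div_le_iff₀ (by positivity)] at hE1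
      linarith
    calc (2 * (N : ℝ) + 1) * (D + 1) * Real.log N ^ S.card ≤ (3 * N) * (D + 1) * Real.log N ^ S.card := by
          gcongr
          linarith
      _ = N * (3 * (D + 1) * Real.log N ^ S.card) := by ring
      _ ≤ N * (2 * a * N) := by gcongr
      _ = 2 * a * (N : ℝ) ^ 2 := by ring
  have hT'c : 2 * a * (N : ℝ) ^ 2 / Real.log N ^ S.card ≤ (T'.card : ℝ) := by
    have h5 : (T'.card : ℝ) + ((T.filter (fun n => ¬ Ins D n)).card : ℝ) = T.card := by
      rw [hT']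
      exact_mod_cast card_filter_add_card_filter_not (s := T) (fun n => Ins D n)
    have h6 : 4 * a * (N : ℝ) ^ 2 / Real.log N ^ S.card = 2 * a * (N : ℝ) ^ 2 / Real.log N ^ S.card +
      2 * a * (N : ℝ) ^ 2 / Real.log N ^ S.card := by ring
    linarith
  have hsum : (T'.card : ℝ) ≤ ∑ k ∈ Ioc N (2 * N), ((T'.filter (fun n => kk n = k)).card : ℝ) := by
    have h6 : T' ⊆ (Ioc N (2 * N)).biUnion (fun k => T'.filter (fun n => kk n = k)) := by
      intro n hn
      rw [mem_biUnion]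
      obtain ⟨e1, e2⟩ := hTX n (hT'T hn)
      exact ⟨kk n, mem_Ioc.2 ⟨e1, e2⟩, mem_filter.2 ⟨hn, rfl⟩⟩
    exact_mod_cast (card_le_card h6).trans card_biUnion_le
  -- the upper bound
  have hpow : (Y : ℝ) ^ (1 / (2 * (t : ℝ))) ≤ (X : ℝ) ^ (1 / (t : ℝ)) := by
    calc (Y : ℝ) ^ (1 / (2 * (t : ℝ))) ≤ ((X : ℝ) ^ (2 : ℝ)) ^ (1 / (2 * (t : ℝ))) := by
          apply Real.rpow_le_rpow hY0.le _ (by positivity)
          rw [show (2 : ℝ) = ((2 : ℕ) : ℝ) by norm_num, Real.rpow_natCast]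
          exact hYX2
      _ = (X : ℝ) ^ (1 / (t : ℝ)) := by
          rw [← Real.rpow_mul hX0.le]
          congr 1
          field_simp
  have hVup : VL (fun _ : Fin S.card => (1 : ℤ)) b₀ Y ≤ CV / Real.log N ^ S.card := by
    refine hE3.trans (div_le_div_of_nonneg_left hCV.le hLv ?_)
    apply pow_le_pow_left₀ hlogN.le
    apply Real.log_le_log hN0
    rw [hYr]
    nlinarith
  have hup : ∀ k ∈ Ioc N (2 * N), ((T'.filter (fun n => kk n = k)).card : ℝ) ≤ u * N / Real.log N ^ S.card := by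
    intro k hk
    rw [mem_Ioc] at hk
    obtain ⟨Ak, hAk⟩ : ∃ Ak : ℕ, Ak = (2 * k - 1) ^ 2 - 1 := ⟨_, rfl⟩
    obtain ⟨Bk, hBk⟩ : ∃ Bk : ℕ, Bk = (2 * k + 1) ^ 2 - 1 := ⟨_, rfl⟩
    obtain ⟨k', rfl⟩ : ∃ k' : ℕ, k = k' + 1 := ⟨k - 1, by omega⟩
    have e0 : 2 * (k' + 1) - 1 = 2 * k' + 1 := by omega
    rw [e0] at hAk
    have hdiff : Bk = Ak + 8 * (k' + 1) := by
      rw [hAk, hBk]
      have h1 : 1 ≤ (2 * k' + 1) ^ 2 := Nat.one_le_pow _ _ (by omega)
      have h2 : (2 * (k' + 1) + 1) ^ 2 = (2 * k' + 1) ^ 2 + 8 * (k' + 1) := by ring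
      omega
    have hBkX : Bk ≤ Y := by
      rw [hBk, hY]
      have h1 : (2 * (k' + 1) + 1) ^ 2 ≤ (4 * N + 1) ^ 2 := Nat.pow_le_pow_left (by omega) 2
      omega
    have hsubk : T'.filter (fun n => kk n = k' + 1) ⊆
        RL (fun _ => 1) b₀ ((Y : ℝ) ^ (1 / (2 * (t : ℝ)))) Ak Bk := by
      intro n hn
      rw [mem_filter] at hn
      obtain ⟨hn1, hn2⟩ := hn
      have hn3 := hcovGG (hT'T hn1)
      obtain ⟨e1, e2⟩ := (kk_spec n (k' + 1) (by omega)).1 hn2
      rw [e0] at e1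
      rw [hGG] at hn3
      unfold Pool.Agent.Results.MP_3efbeb_nt.IsolatedClusters.Good at hn3
      rw [mem_filter] at hn3
      unfold RL
      rw [mem_filter, mem_Ioc]
      have h1 : 1 ≤ (2 * k' + 1) ^ 2 := Nat.one_le_pow _ _ (by omega)
      refine ⟨⟨by omega, by omega⟩, fun i p hp hpy hd => ?_⟩
      obtain ⟨s, hs, he⟩ := hb₀m i
      rw [he, one_mul] at hd
      have h2 := (hn3.2.1 s hs).2.2 p hp (by exact_mod_cast hd)
      linarith
    have hdr : (Bk : ℝ) - Ak = 8 * (k' + 1) := by rw [hdiff]; push_cast; ring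
    have hk'r : (N : ℝ) ≤ (k' : ℝ) + 1 := by exact_mod_cast (by omega : N ≤ k' + 1)
    have hk'2 : (k' : ℝ) + 1 ≤ 2 * N := by exact_mod_cast (by omega : k' + 1 ≤ 2 * N)
    have hlen : (Y : ℝ) ^ (1 / 3 : ℝ) ≤ (Bk : ℝ) - Ak := by
      rw [hdr]
      have h1 : (Y : ℝ) ^ (1 / 3 : ℝ) ≤ N := by
        calc (Y : ℝ) ^ (1 / 3 : ℝ) ≤ ((N : ℝ) ^ (3 : ℝ)) ^ (1 / 3 : ℝ) := by
              apply Real.rpow_le_rpow hY0.le _ (by norm_num)
              rw [show (3 : ℝ) = ((3 : ℕ) : ℝ) by norm_num, Real.rpow_natCast]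
              exact hYN3
          _ = N := by
              rw [← Real.rpow_mul hN0.le]
              norm_num
      linarith
    have h7 := HR Y (by omega) (fun _ => 1) b₀ (fun _ => one_ne_zero) (fun _ => by norm_num) Ak Bk hBkX hlen
    rw [hdr] at h7
    calc ((T'.filter (fun n => kk n = k' + 1)).card : ℝ)
        ≤ ((RL (fun _ => 1) b₀ ((Y : ℝ) ^ (1 / (2 * (t : ℝ)))) Ak Bk).card : ℝ) := by
          exact_mod_cast card_le_card hsubk
      _ ≤ KU * (8 * (k' + 1)) * VL (fun _ => 1) b₀ Y := h7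
      _ ≤ KU * (8 * (2 * N)) * (CV / Real.log N ^ S.card) :=
          mul_le_mul (by gcongr) hVup (VL_nonneg _ _ _) (by positivity)
      _ = u * N / Real.log N ^ S.card := by rw [hu]; ring
  -- the large intervals
  obtain ⟨big, hbig⟩ : ∃ big : Finset ℕ, big = (Ioc N (2 * N)).filter (fun k => a * N / Real.log N ^ S.card ≤
    ((T'.filter (fun n => kk n = k)).card : ℝ)) := ⟨_, rfl⟩
  have hMN : ((Ioc N (2 * N)).card : ℝ) ≤ N := by
    rw [Nat.card_Ioc]
    have : 2 * N - N = N := by omega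
    rw [this]
  have htot : ∑ k ∈ Ioc N (2 * N), ((T'.filter (fun n => kk n = k)).card : ℝ) ≤
      big.card * (u * N / Real.log N ^ S.card) + N * (a * N / Real.log N ^ S.card) := by
    rw [← sum_filter_add_sum_filter_not (Ioc N (2 * N)) (fun k => a * N / Real.log N ^ S.card ≤
      ((T'.filter (fun n => kk n = k)).card : ℝ)), ← hbig]
    apply add_le_add
    · have := sum_le_card_nsmul big (fun k => ((T'.filter (fun n => kk n = k)).card : ℝ))
        (u * N / Real.log N ^ S.card) (fun k hk => hup k (by rw [hbig, mem_filter] at hk; exact hk.1))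
      rwa [nsmul_eq_mul] at this
    · have := sum_le_card_nsmul ((Ioc N (2 * N)).filter (fun k => ¬ a * N / Real.log N ^ S.card ≤
          ((T'.filter (fun n => kk n = k)).card : ℝ)))
        (fun k => ((T'.filter (fun n => kk n = k)).card : ℝ))
        (a * N / Real.log N ^ S.card) (fun k hk => by rw [mem_filter] at hk; exact (not_le.1 hk.2).le)
      rw [nsmul_eq_mul] at this
      refine this.trans ?_
      apply mul_le_mul_of_nonneg_right _ (by positivity)
      refine le_trans ?_ hMN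
      exact_mod_cast card_le_card (filter_subset _ _)
  have hbigc : a / u * N ≤ big.card := by
    have h1 := hT'c.trans (hsum.trans htot)
    have h2 : 2 * a * (N : ℝ) ^ 2 / Real.log N ^ S.card = N * (a * N / Real.log N ^ S.card) +
      (a * N) * (N / Real.log N ^ S.card) := by ring
    have h3 : (big.card : ℝ) * (u * N / Real.log N ^ S.card) = (big.card * u) * (N / Real.log N ^ S.card) := by ring
    rw [h2, h3] at h1
    have h4 : (a * N) * (N / Real.log N ^ S.card) ≤ (big.card * u) * (N / Real.log N ^ S.card) := by linarith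
    have h5 : a * N ≤ big.card * u := le_of_mul_le_mul_right h4 (by positivity)
    rw [div_mul_eq_mul_div, div_le_iff₀ hu0]
    exact h5
  have hfin : big ⊆ (Ioc N (2 * N)).filter (fun k => min a (a / u) * (N / Real.log N ^ S.card) ≤
      ((InProg S (c * Real.log S.card) t J N (ε * Real.log N) ((N : ℝ) ^ β) χ l (Real.log N ^ (C + 1)) k).card :
        ℝ)) := by
    intro k hk
    rw [hbig, mem_filter] at hk
    rw [mem_filter]
    refine ⟨hk.1, ?_⟩
    have h1 : T'.filter (fun n => kk n = k) ⊆ InProg S (c * Real.log S.card) t J N (ε * Real.log N) ((N : ℝ) ^ β) χ l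
        (Real.log N ^ (C + 1)) k := by
      intro n hn
      rw [mem_filter] at hn
      have := hin n hn.1
      rwa [hn.2] at this
    have h2 : ((T'.filter (fun n => kk n = k)).card : ℝ) ≤ ((InProg S (c * Real.log S.card) t J N (ε * Real.log N)
        ((N : ℝ) ^ β) χ l (Real.log N ^ (C + 1)) k).card : ℝ) := by exact_mod_cast card_le_card h1
    refine le_trans ?_ (hk.2.trans h2)
    rw [mul_div_assoc]
    exact mul_le_mul_of_nonneg_right (min_le_left _ _) (by positivity)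
  have hlast : (big.card : ℝ) ≤ (((Ioc N (2 * N)).filter (fun k => min a (a / u) * (N / Real.log N ^ S.card) ≤
      ((InProg S (c * Real.log S.card) t J N (ε * Real.log N) ((N : ℝ) ^ β) χ l (Real.log N ^ (C + 1)) k).card :
        ℝ))).card : ℝ) := by exact_mod_cast card_le_card hfin
  refine le_trans ?_ (hbigc.trans hlast)
  exact mul_le_mul_of_nonneg_right (min_le_right _ _) hN0.le

end Pool.Agent.Results.MP_3a3367_nt.PrimeClusters
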